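import Mathlib

/-!
# Topological lemmas: maps which miss a value, sums of totally disconnected sets, condensation
points
-/

set_option autoImplicit false

open MeasureTheory Set Metric Filter Topology TopologicalSpace
open scoped Manifold ContDiff

namespace Pool.Agent.N512.HS

/-- continuous maps are uniform limits of smooth maps -/
theorem smooth_approx {n : ℕ} {f : (EuclideanSpace ℝ (Fin n)) → EuclideanSpace ℝ (Fin n)} (hf : Continuous f) {ε : ℝ} (hε : 0 < ε) :
    ∃ g : (EuclideanSpace ℝ (Fin n)) → EuclideanSpace ℝ (Fin n), ContDiff ℝ 1 g ∧ ∀ x, dist (g x) (f x) < ε := by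
  obtain ⟨g, hg⟩ := exists_contMDiffMap_forall_mem_convex_of_local_const (n := 1)
    (I := 𝓘(ℝ, EuclideanSpace ℝ (Fin n))) (M := EuclideanSpace ℝ (Fin n)) (F := EuclideanSpace ℝ (Fin n)) (t := fun x => ball (f x) ε)
    (fun x => convex_ball _ _) (fun x => ⟨f x, by
      have h1 : ∀ᶠ y in 𝓝 x, dist (f y) (f x) < ε :=
        (hf.tendsto x).eventually (ball_mem_nhds (f x) hε)
      filter_upwards [h1] with y hy
      rw [mem_ball, dist_comm]
      exact hy⟩)
  exact ⟨g, g.contMDiff.contDiff, fun x => hg x⟩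

/-- a continuous map of a compact subset of a hyperplane is close to a map which misses a given
value -/
theorem miss {n : ℕ} {L : Set (EuclideanSpace ℝ (Fin n))} (hL : IsCompact L) {i : Fin n} {t : ℝ}
    (hLt : ∀ x ∈ L, x i = t) {f : (EuclideanSpace ℝ (Fin n)) → EuclideanSpace ℝ (Fin n)} (hf : ContinuousOn f L) (y : EuclideanSpace ℝ (Fin n)) {ε : ℝ}
    (hε : 0 < ε) :
    ∃ η : (EuclideanSpace ℝ (Fin n)) → EuclideanSpace ℝ (Fin n), ContinuousOn η L ∧ (∀ x ∈ L, ‖η x‖ ≤ ε) ∧ ∀ x ∈ L, f x + η x ≠ y := by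
  -- extend
  obtain ⟨f1, hf1⟩ := ContinuousMap.exists_restrict_eq (Y := EuclideanSpace ℝ (Fin n)) hL.isClosed
    ⟨L.domRestrict f, continuousOn_iff_continuous_domRestrict.1 hf⟩
  have hf1' : ∀ x ∈ L, f1 x = f x := by
    intro x hx
    have := DFunLike.congr_fun hf1 ⟨x, hx⟩
    exact this
  obtain ⟨g, hg, hgf⟩ := smooth_approx f1.continuous (half_pos hε)
  have hvol : volume L = 0 := by
    have h1 : L ⊆ {x : EuclideanSpace ℝ (Fin n) | x i = t} := fun x hx => hLt x hx
    refine measure_mono_null h1 ?_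
    have h2 : {x : EuclideanSpace ℝ (Fin n) | x i = t} =
        (AffineSubspace.mk' (EuclideanSpace.single i t : EuclideanSpace ℝ (Fin n))
          (LinearMap.ker (EuclideanSpace.proj i : (EuclideanSpace ℝ (Fin n)) →L[ℝ] ℝ).toLinearMap) : Set (EuclideanSpace ℝ (Fin n))) := by
      ext x
      simp [AffineSubspace.mem_mk', sub_eq_zero]
    rw [h2]
    refine Measure.addHaar_affineSubspace _ _ ?_
    intro htop
    have h3 : (EuclideanSpace.single i (t + 1) : EuclideanSpace ℝ (Fin n)) ∈ AffineSubspace.mk'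
        (EuclideanSpace.single i t : EuclideanSpace ℝ (Fin n))
          (LinearMap.ker (EuclideanSpace.proj i : (EuclideanSpace ℝ (Fin n)) →L[ℝ] ℝ).toLinearMap) := by
      rw [htop]
      trivial
    simp [AffineSubspace.mem_mk'] at h3
  have himg : volume (g '' L) = 0 :=
    addHaar_image_eq_zero_of_differentiableOn_of_addHaar_eq_zero volume
      (hg.differentiable one_ne_zero).differentiableOn hvol
  -- a small translation
  obtain ⟨w, hw1, hw2⟩ : ∃ w ∈ ball (0 : EuclideanSpace ℝ (Fin n)) (ε / 2), y - w ∉ g '' L := by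
    by_contra hcon
    push Not at hcon
    have h1 : (fun w => y - w) '' ball (0 : EuclideanSpace ℝ (Fin n)) (ε / 2) ⊆ g '' L := by
      rintro _ ⟨w, hw, rfl⟩
      exact hcon w hw
    have h2 : (fun w => y - w) '' ball (0 : EuclideanSpace ℝ (Fin n)) (ε / 2) = ball y (ε / 2) := by
      ext z
      constructor
      · rintro ⟨w, hw, rfl⟩
        simpa [dist_eq_norm] using hw
      · intro hz
        refine ⟨y - z, ?_, sub_sub_cancel y z⟩
        rw [mem_ball, dist_eq_norm] at hz
        rw [mem_ball_zero_iff, ← norm_neg, neg_sub]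
        exact hz
    rw [h2] at h1
    have h3 : 0 < volume (ball y (ε / 2)) := measure_ball_pos _ _ (half_pos hε)
    have h4 := measure_mono_null h1 himg
    rw [h4] at h3
    exact lt_irrefl _ h3
  refine ⟨fun x => g x + w - f x, ?_, ?_, ?_⟩
  · exact (hg.continuous.continuousOn.add continuousOn_const).sub hf
  · intro x hx
    have h1 := hgf x
    rw [hf1' x hx, dist_eq_norm] at h1
    have h2 : ‖w‖ < ε / 2 := by simpa using hw1
    calc ‖g x + w - f x‖ = ‖(g x - f x) + w‖ := by congr 1; abel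
      _ ≤ ‖g x - f x‖ + ‖w‖ := norm_add_le _ _
      _ ≤ ε := by linarith
  · intro x hx h
    apply hw2
    refine ⟨x, hx, ?_⟩
    rw [← h]
    simp only
    abel

/-- a compact connected metric space which is a countable union of closed totally disconnected
subsets is a point -/
theorem subsingleton_of_cover {Y : Type*} [MetricSpace Y] [CompactSpace Y] [PreconnectedSpace Y]
    {ι : Type*} [Countable ι] (f : ι → Set Y) (hf : ∀ j, IsClosed (f j)) (hU : ⋃ j, f j = univ)
    (hd : ∀ j, ∀ S ⊆ f j, IsPreconnected S → S.Subsingleton) : Subsingleton Y := by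
  by_contra hns
  rw [not_subsingleton_iff_nontrivial] at hns
  have hne : Nonempty Y := hns.to_nonempty
  obtain ⟨j, hj⟩ := nonempty_interior_of_iUnion_of_closed hf hU
  obtain ⟨x, hx⟩ := hj
  obtain ⟨x', hx'⟩ := exists_ne x
  have hpos : 0 < dist x' x := dist_pos.2 hx'
  obtain ⟨ρ0, hρ0, hball⟩ := Metric.isOpen_iff.1 isOpen_interior x hx
  set ρ : ℝ := min (ρ0 / 2) (dist x' x / 2) with hρ
  have hρp : 0 < ρ := lt_min (by positivity) (by positivity)
  have hsub : closedBall x ρ ⊆ f j := by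
    refine (closedBall_subset_ball ?_).trans (hball.trans interior_subset)
    exact lt_of_le_of_lt (min_le_left _ _) (by linarith)
  have hcomp : CompactSpace (closedBall x ρ) :=
    isCompact_iff_compactSpace.1 isClosed_closedBall.isCompact
  have htd : TotallyDisconnectedSpace (closedBall x ρ) := by
    refine ⟨fun S _ hS => ?_⟩
    have h1 : (Subtype.val '' S).Subsingleton := by
      refine hd j _ ?_ (hS.image _ continuous_subtype_val.continuousOn)
      rintro _ ⟨z, -, rfl⟩
      exact hsub z.2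
    intro a ha b hb
    exact Subtype.ext (h1 ⟨a, ha, rfl⟩ ⟨b, hb, rfl⟩)
  obtain ⟨A, hA, hxA, hAs⟩ := compact_exists_isClopen_in_isOpen
    (X := closedBall x ρ) (x := ⟨x, mem_closedBall_self hρp.le⟩)
    (U := Subtype.val ⁻¹' ball x ρ) (isOpen_ball.preimage continuous_subtype_val)
    (mem_ball_self hρp)
  have hclopen : IsClopen (Subtype.val '' A : Set Y) := by
    refine ⟨isClosed_closedBall.isClosedMap_subtype_val _ hA.1, ?_⟩
    obtain ⟨O, hO, hOA⟩ := isOpen_induced_iff.1 hA.2
    have h1 : (Subtype.val '' A : Set Y) = O ∩ ball x ρ := by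
      ext z
      constructor
      · rintro ⟨w, hw, rfl⟩
        refine ⟨?_, hAs hw⟩
        rw [← hOA] at hw
        exact hw
      · rintro ⟨hz1, hz2⟩
        refine ⟨⟨z, ball_subset_closedBall hz2⟩, ?_, rfl⟩
        rw [← hOA]
        exact hz1
    rw [h1]
    exact hO.inter isOpen_ball
  have huniv := hclopen.eq_univ ⟨x, _, hxA, rfl⟩
  have hx'' : x' ∈ (Subtype.val '' A : Set Y) := by rw [huniv]; trivial
  obtain ⟨w, hw, hwx⟩ := hx''
  have h2 := hAs hw
  rw [mem_preimage, hwx, mem_ball] at h2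
  have h3 : ρ ≤ dist x' x / 2 := min_le_right _ _
  linarith

/-- the condensation points of a set -/
def Cond {Y : Type*} [TopologicalSpace Y] (N : Set Y) : Set Y :=
  {v | ∀ U ∈ 𝓝 v, ¬ (U ∩ N).Countable}

theorem isClosed_Cond {Y : Type*} [TopologicalSpace Y] (N : Set Y) : IsClosed (Cond N) := by
  rw [← isOpen_compl_iff, isOpen_iff_mem_nhds]
  intro v hv
  simp only [Cond, mem_compl_iff, mem_ofPred_eq, not_forall, not_not] at hv
  obtain ⟨U, hU, hUN⟩ := hv
  obtain ⟨U', hU'U, hU'o, hvU'⟩ := mem_nhds_iff.1 hU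
  filter_upwards [hU'o.mem_nhds hvU'] with w hw hwC
  exact hwC U' (hU'o.mem_nhds hw) (hUN.mono (inter_subset_inter_left _ hU'U))

theorem countable_diff_Cond {Y : Type*} [TopologicalSpace Y] [SecondCountableTopology Y]
    (N : Set Y) : (N \ Cond N).Countable := by
  have h1 : N \ Cond N ⊆ ⋃ B ∈ {B ∈ countableBasis Y | (B ∩ N).Countable}, B ∩ N := by
    rintro v ⟨hvN, hvC⟩
    simp only [Cond, mem_ofPred_eq, not_forall, not_not] at hvC
    obtain ⟨U, hU, hUN⟩ := hvC
    obtain ⟨B, hB, hvB, hBU⟩ := (isBasis_countableBasis Y).mem_nhds_iff.1 hU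
    exact mem_biUnion (x := B) ⟨hB, hUN.mono (inter_subset_inter_left _ hBU)⟩ ⟨hvB, hvN⟩
  refine Countable.mono h1 ?_
  refine Countable.biUnion ((countable_countableBasis Y).mono (sep_subset _ _)) ?_
  intro B hB
  exact hB.2

/-- a nontrivial connected subset consists of condensation points -/
theorem subset_Cond {Y : Type*} [MetricSpace Y] {N C : Set Y} (hC : IsPreconnected C)
    (hCN : C ⊆ N) (hns : ¬ C.Subsingleton) : C ⊆ Cond N := by
  intro v hv U hU hcount
  rw [Set.not_subsingleton_iff] at hns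
  obtain ⟨w, hw, hwv⟩ := hns.exists_ne v
  obtain ⟨ρ, hρ, hball⟩ := Metric.mem_nhds_iff.1 hU
  have hpos : 0 < dist w v := dist_pos.2 hwv
  have h1 : IsPreconnected ((fun z => dist z v) '' C) :=
    hC.image _ (continuous_id.dist continuous_const).continuousOn
  have h2 : ((fun z => dist z v) '' C).OrdConnected := h1.ordConnected
  have h3 : Ico (0 : ℝ) (min ρ (dist w v)) ⊆ (fun z => dist z v) '' (U ∩ N) := by
    rintro t ⟨ht0, ht1⟩
    have ht2 : t < ρ := lt_of_lt_of_le ht1 (min_le_left _ _)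
    have ht3 : t < dist w v := lt_of_lt_of_le ht1 (min_le_right _ _)
    obtain ⟨z, hz, hzt⟩ := h2.out (x := 0) ⟨v, hv, dist_self v⟩ (y := dist w v) ⟨w, hw, rfl⟩
      ⟨ht0, ht3.le⟩
    refine ⟨z, ⟨hball ?_, hCN hz⟩, hzt⟩
    rw [mem_ball]
    simp only at hzt
    rw [hzt]
    exact ht2
  have h4 : (Ico (0 : ℝ) (min ρ (dist w v))).Countable := (hcount.image _).mono h3
  have h5 : (Ico (0 : ℝ) (min ρ (dist w v))) ∈ 𝓝[≥] (0 : ℝ) := Ico_mem_nhdsGE (lt_min hρ hpos)
  have h6 : Cardinal.mk (Ico (0 : ℝ) (min ρ (dist w v))) = Cardinal.continuum :=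
    Cardinal.mk_Ico_real (lt_min hρ hpos)
  have h7 := h4.le_aleph0
  rw [h6] at h7
  exact absurd h7 (not_le.2 Cardinal.aleph0_lt_continuum)

end Pool.Agent.N512.HS
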