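import Pool.Agent.R775.HC.C4
import Pool.Agent.N512.HS.A1

/-!
# The averaging operator over the closure of the powers of an element
-/

set_option autoImplicit false

open MeasureTheory Set Metric Filter Topology
open scoped ENNReal NNReal

namespace Pool.Agent.N512.HS

open Pool.Agent.Y485.HS Pool.Agent.Y489.SP Pool.Agent.Y475.HS Pool.Agent.R775.HS
  Pool.Agent.R775.HC

/-- the averaging operator -/
theorem exists_avgop {n : ℕ} {X : Type} [TopologicalSpace X] [T2Space X] {H : Type} [Group H]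
    [TopologicalSpace H] [IsTopologicalGroup H] [T2Space H] [MulAction H X] [ContinuousSMul H X]
    {φ : OpenPartialHomeomorph X (E n)} {g : H}
    (hcomp : IsCompact ((Subgroup.zpowers g).topologicalClosure : Set H))
    (hs : Small φ ((Subgroup.zpowers g).topologicalClosure : Set H)) :
    ∃ A : C(E n, E n) → E n → E n,
      (∀ ψ, ContinuousOn (A ψ) (closedBall 0 4)) ∧
      (∀ ψ, ∀ v ∈ closedBall (0 : E n) 3, A ψ (φ (g • φ.symm v)) = A ψ v) ∧
      (∀ ψ ψ', ∀ v ∈ closedBall (0 : E n) 4, A (ψ + ψ') v = A ψ v + A ψ' v) ∧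
      (∀ ψ (c : ℝ), ∀ v ∈ closedBall (0 : E n) 4,
        (∀ k ∈ (Subgroup.zpowers g).topologicalClosure, ‖ψ (φ (k • φ.symm v))‖ ≤ c) →
          ‖A ψ v‖ ≤ c) ∧
      (∀ ψ (a : E n), ∀ v ∈ closedBall (0 : E n) 4,
        (∀ k ∈ (Subgroup.zpowers g).topologicalClosure, ψ (φ (k • φ.symm v)) = a) →
          A ψ v = a) ∧
      (∀ v ∈ closedBall (0 : E n) 4, dist (A (ContinuousMap.id _) v) v < 1 / 4) ∧
      ∀ (Q : Set (E n)) (r b : ℝ) (σ : E n → E n), (∀ u ∈ Q, σ u ∈ closedBall (0 : E n) 4) →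
        (∀ q ∈ (Subgroup.zpowers g).topologicalClosure,
          Ener Q r b (fun u => φ (q • φ.symm (σ u)))) →
        Ener Q r b (fun u => A (ContinuousMap.id _) (σ u)) := by
  set K : Subgroup H := (Subgroup.zpowers g).topologicalClosure with hKdef
  have hT := locAct_of_small K hs
  set T : K → E n → E n := fun h v => φ ((h : H) • φ.symm v) with hTdef
  have hgmem : g ∈ K := Subgroup.le_topologicalClosure _ (Subgroup.mem_zpowers g)
  have hKcomp : CompactSpace K := isCompact_iff_compactSpace.1 hcomp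
  let _ : MeasurableSpace K := borel K
  have _ : BorelSpace K := ⟨rfl⟩
  let μ : Measure K := Measure.haarMeasure ⊤
  have hμ1 : IsProbabilityMeasure μ := ⟨by
    have := Measure.haarMeasure_self (K₀ := (⊤ : TopologicalSpace.PositiveCompacts K))
    simpa using this⟩
  let S : C(E n, E n) → K → E n → E n := fun ψ k x => ψ (T k⁻¹ x)
  have hScont : ∀ ψ, ContinuousOn (fun q : K × E n => S ψ q.1 q.2) (univ ×ˢ BB n) := by
    intro ψ
    have hc : Continuous (fun q : K × E n => (q.1⁻¹, q.2)) := by fun_prop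
    refine ψ.continuous.comp_continuousOn (hT.cont.comp hc.continuousOn ?_)
    rintro ⟨k, x⟩ ⟨-, hx⟩
    exact ⟨mem_univ _, hx⟩
  have hSc1 : ∀ ψ, ∀ x ∈ BB n, Continuous (fun k => S ψ k x) := by
    intro ψ x hx
    have hc : Continuous (fun k : K => (k, x)) := by fun_prop
    exact (hScont ψ).comp_continuous hc (fun k => ⟨mem_univ _, hx⟩)
  have hSint : ∀ ψ, ∀ x ∈ BB n, Integrable (fun k => S ψ k x) μ := fun ψ x hx =>
    (hSc1 ψ x hx).integrable_of_hasCompactSupport (HasCompactSupport.of_compactSpace _)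
  have hinvm : ∀ k : K, ((k⁻¹ : K) : H) ∈ K := fun k => (k⁻¹).2
  refine ⟨fun ψ x => ∫ k, S ψ k x ∂μ, ?_, ?_, ?_, ?_, ?_, ?_, ?_⟩
  · intro ψ
    let Φ : C(K, C(BB n, E n)) := res (S ψ) (hScont ψ)
    have hint : Integrable (fun ω => Φ ω) μ :=
      Φ.continuous.integrable_of_hasCompactSupport (HasCompactSupport.of_compactSpace _)
    have heval : ∀ x : BB n, ∫ ω, S ψ ω x.1 ∂μ = (∫ ω, Φ ω ∂μ : C(BB n, E n)) x := by
      intro x
      have := (ContinuousMap.evalCLM ℝ x : C(BB n, E n) →L[ℝ] E n).integral_comp_comm hint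
      exact this
    show ContinuousOn (fun x => ∫ ω, S ψ ω x ∂μ) (BB n)
    rw [continuousOn_iff_continuous_domRestrict]
    have : (BB n).domRestrict (fun x => ∫ ω, S ψ ω x ∂μ) = (∫ ω, Φ ω ∂μ : C(BB n, E n)) := by
      ext1 x
      exact heval x
    rw [this]
    exact (∫ ω, Φ ω ∂μ : C(BB n, E n)).continuous
  · intro ψ v hv
    have hvn : ‖v‖ ≤ 3 := by simpa using hv
    have hv4 : v ∈ BB n := closedBall_subset_closedBall (by norm_num) hv
    have h2 := norm_T_le hT ⟨g, hgmem⟩ hv4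
    have hgv : T ⟨g, hgmem⟩ v ∈ BB n := mem_BB.2 (by linarith)
    have h1 : ∀ k' : K, S ψ k' (T ⟨g, hgmem⟩ v) = S ψ (⟨g, hgmem⟩⁻¹ * k') v := by
      intro k'
      show ψ (T k'⁻¹ (T ⟨g, hgmem⟩ v)) = ψ (T (⟨g, hgmem⟩⁻¹ * k')⁻¹ v)
      rw [← hT.mul _ _ v hv4 hgv]
      congr 2
      simp
    show ∫ k', S ψ k' (T ⟨g, hgmem⟩ v) ∂μ = ∫ k', S ψ k' v ∂μ
    simp_rw [h1]
    exact integral_mul_left_eq_self (fun k' => S ψ k' v) (⟨g, hgmem⟩⁻¹ : K)
  · intro ψ ψ' v hv
    exact integral_add (hSint ψ v hv) (hSint ψ' v hv)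
  · intro ψ c v hv hc
    have h2 := norm_integral_le_of_norm_le_const (μ := μ) (f := fun k => S ψ k v) (C := c)
      (Eventually.of_forall fun k => hc _ (hinvm k))
    simpa using h2
  · intro ψ a v hv ha
    have h1 : ∀ k : K, S ψ k v = a := fun k => ha _ (hinvm k)
    show ∫ k, S ψ k v ∂μ = a
    simp_rw [h1]
    simp
  · intro v hv
    have h1 : (∫ k, S (ContinuousMap.id _) k v ∂μ) - v =
        ∫ k, (S (ContinuousMap.id _) k v - v) ∂μ := by
      rw [integral_sub (hSint _ v hv) (integrable_const _)]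
      simp
    rw [dist_eq_norm, h1]
    have hc : Continuous (fun k : K => ‖S (ContinuousMap.id _) k v - v‖) :=
      ((hSc1 _ v hv).sub continuous_const).norm
    have hle : ∀ k : K, ‖S (ContinuousMap.id _) k v - v‖ ≤ 1 / 4 := by
      intro k
      have := hT.disp k⁻¹ v hv
      rwa [dist_eq_norm] at this
    refine lt_of_le_of_lt (norm_integral_le_integral_norm _) ?_
    have hci : ∀ f : K → ℝ, Continuous f → Integrable f μ := fun f hf =>
      hf.integrable_of_hasCompactSupport (HasCompactSupport.of_compactSpace _)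
    have hpos : 0 < ∫ k : K, (1 / 4 - ‖S (ContinuousMap.id _) k v - v‖) ∂μ := by
      refine (continuous_const.sub hc).integral_pos_of_hasCompactSupport_nonneg_nonzero (x := 1)
        (HasCompactSupport.of_compactSpace _) (fun k => sub_nonneg.2 (hle k)) ?_
      have h3 : S (ContinuousMap.id _) (1 : K) v = v := by
        show T (1 : K)⁻¹ v = v
        rw [inv_one]
        exact hT.one v hv
      rw [h3]
      simp
    rw [integral_sub (integrable_const _) (hci _ hc)] at hpos
    simp only [integral_const, probReal_univ, one_smul] at hpos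
    linarith
  · intro Q r b σ hσ hE
    exact ener_avg μ (fun k u => S (ContinuousMap.id _) k (σ u)) (fun u hu => hSc1 _ _ (hσ u hu))
      (fun k => hE _ (hinvm k))

end Pool.Agent.N512.HS
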