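import Pool.Agent.N512.HS.A2

/-!
# Points of infinite orbit; the basic perturbation
-/

set_option autoImplicit false
set_option linter.unusedSectionVars false

open MeasureTheory Set Metric Filter Topology TopologicalSpace
open scoped ENNReal NNReal BoundedContinuousFunction

namespace Pool.Agent.N512.HS

open Pool.Agent.Y485.HS Pool.Agent.Y489.SP Pool.Agent.Y475.HS Pool.Agent.R775.HS
  Pool.Agent.R775.HC

/-- no positive power of `g` fixes the point -/
def InfOrbit {H X : Type} [Monoid H] [MulAction H X] (g : H) (x : X) : Prop :=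
  ∀ m : ℕ, 0 < m → g ^ m • x ≠ x

section
variable {X : Type} [TopologicalSpace X] {H : Type} [Group H] [TopologicalSpace H]
  [IsTopologicalGroup H] [MulAction H X] [ContinuousSMul H X]

theorem inf_zpow {g : H} {x : X} (j : ℤ) (h : InfOrbit g x) : InfOrbit g (g ^ j • x) := by
  intro m hm he
  apply h m hm
  have h1 : g ^ m • g ^ j • x = g ^ j • g ^ m • x := by
    rw [smul_smul, smul_smul, ← zpow_natCast, ← zpow_add, ← zpow_add, add_comm]
  rw [h1] at he
  exact MulAction.injective (g ^ j) he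

theorem clI_zpow {g : H} {x : X} (j : ℤ) (h : x ∈ closure {x : X | InfOrbit g x}) :
    g ^ j • x ∈ closure {x : X | InfOrbit g x} :=
  map_mem_closure (continuous_const_smul (g ^ j)) h fun _ hz => inf_zpow j hz

theorem clI_closure {g k : H} {x : X} (hk : k ∈ (Subgroup.zpowers g).topologicalClosure)
    (h : x ∈ closure {x : X | InfOrbit g x}) : k • x ∈ closure {x : X | InfOrbit g x} := by
  have h1 : IsClosed {k : H | k • x ∈ closure {x : X | InfOrbit g x}} := by
    have hc : Continuous (fun k : H => k • x) := by fun_prop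
    exact isClosed_closure.preimage hc
  rw [← SetLike.mem_coe, Subgroup.topologicalClosure_coe] at hk
  refine closure_minimal ?_ h1 hk
  rintro _ ⟨j, rfl⟩
  exact clI_zpow j h

/-- the orbit of a periodic point under the closure of the powers -/
theorem orb [T2Space X] {g k : H} {z : X} {d : ℕ} (hd : 0 < d) (hz : g ^ d • z = z)
    (hk : k ∈ (Subgroup.zpowers g).topologicalClosure) : ∃ j < d, k • z = g ^ j • z := by
  have h1 : IsClosed {k : H | ∃ j < d, k • z = g ^ j • z} := by
    have h2 : {k : H | ∃ j < d, k • z = g ^ j • z} =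
        ⋃ j ∈ Finset.range d, {k : H | k • z = g ^ j • z} := by
      ext k
      simp
    rw [h2]
    refine isClosed_biUnion_finset fun j _ => ?_
    have hc : Continuous (fun k : H => k • z) := by fun_prop
    exact isClosed_eq hc continuous_const
  rw [← SetLike.mem_coe, Subgroup.topologicalClosure_coe] at hk
  refine closure_minimal ?_ h1 hk
  rintro _ ⟨i, rfl⟩
  have hd' : (0 : ℤ) < d := by exact_mod_cast hd
  refine ⟨(i % d).toNat, ?_, ?_⟩
  · have := Int.emod_lt_of_pos i hd'
    have h0 := Int.emod_nonneg i hd'.ne'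
    omega
  · have h0 := Int.emod_nonneg i hd'.ne'
    have e1 : g ^ ((i % d).toNat) = g ^ (i % d) := by
      rw [← zpow_natCast, Int.toNat_of_nonneg h0]
    have e2 : ∀ q : ℤ, (g ^ (d : ℤ)) ^ q • z = z := by
      intro q
      have h3 : g ^ (d : ℤ) ∈ MulAction.stabilizer H z := by
        rw [MulAction.mem_stabilizer_iff, zpow_natCast]
        exact hz
      exact (MulAction.stabilizer H z).zpow_mem h3 q
    show g ^ i • z = g ^ ((i % d).toNat) • z
    rw [e1]
    conv_lhs => rw [← Int.emod_add_mul_ediv i d]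
    rw [zpow_add, zpow_mul, mul_smul, e2]

/-- the points of the closed set where the perturbations vanish -/
def Wset (n : ℕ) (φ : OpenPartialHomeomorph X (E n)) (g : H) : Set (E n) :=
  {v | 5 / 2 ≤ ‖v‖} ∪ (closedBall 0 4 ∩ φ.symm ⁻¹'
    (closure {x : X | InfOrbit g x} ∪ {x : X | g • x = x}))

/-- admissible balls -/
def Adm (n : ℕ) (φ : OpenPartialHomeomorph X (E n)) (g : H) (c : E n) (r : ℝ) (d : ℕ) : Prop :=
  0 < d ∧ closedBall c r ⊆ closedBall 0 2 ∧ Disjoint (closedBall c r) (Wset n φ g) ∧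
    ∀ j, 0 < j → j < d → ∀ u ∈ closedBall c r, φ (g ^ j • φ.symm u) ∉ closedBall c r

variable {n : ℕ} {φ : OpenPartialHomeomorph X (E n)} {g : H}

theorem isClosed_Wset [T2Space X] (ht : closedBall (0 : E n) 4 ⊆ φ.target) :
    IsClosed (Wset n φ g) := by
  refine (isClosed_le continuous_const continuous_norm).union ?_
  refine (φ.continuousOn_symm.mono ht).preimage_isClosed_of_isClosed isClosed_closedBall ?_
  exact isClosed_closure.union (isClosed_eq (continuous_const_smul g) continuous_id)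

/-- one step: the perturbation which avoids a value on a piece of a stratum -/
theorem step [T2Space X] [T2Space H]
    (hs : Small φ ((Subgroup.zpowers g).topologicalClosure : Set H))
    {A : C(E n, E n) → E n → E n} (hA1 : ∀ ψ, ContinuousOn (A ψ) (closedBall 0 4))
    (hA3 : ∀ ψ ψ', ∀ v ∈ closedBall (0 : E n) 4, A (ψ + ψ') v = A ψ v + A ψ' v)
    (hA5 : ∀ ψ (a : E n), ∀ v ∈ closedBall (0 : E n) 4,
        (∀ k ∈ (Subgroup.zpowers g).topologicalClosure, ψ (φ (k • φ.symm v)) = a) →
          A ψ v = a)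
    {c : E n} {r : ℝ} {d : ℕ} (hadm : Adm n φ g c r d) (i : Fin n) (t : ℝ) (y : E n)
    (δ0 : E n →ᵇ E n) (hδ0 : ∀ w ∈ Wset n φ g, δ0 w = 0) {ε : ℝ} (hε : 0 < ε) :
    ∃ δ1 : E n →ᵇ E n, (∀ w ∈ Wset n φ g, δ1 w = 0) ∧ ‖δ1 - δ0‖ ≤ ε ∧
      ∀ x ∈ closedBall c r, g ^ d • φ.symm x = φ.symm x → x i = t →
        A (ContinuousMap.id _) x + A (δ1 : C(E n, E n)) x ≠ y := by
  classical
  obtain ⟨hd, hc2, hcW, hcj⟩ := hadm
  obtain ⟨ht, hsm⟩ := hs
  have h24 : closedBall (0 : E n) 2 ⊆ closedBall 0 4 := closedBall_subset_closedBall (by norm_num)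
  have hgj : ∀ j : ℕ, g ^ j ∈ ((Subgroup.zpowers g).topologicalClosure : Set H) := fun j =>
    Subgroup.le_topologicalClosure _ (Subgroup.npow_mem_zpowers g j)
  have hgj' : ∀ j : ℕ, (g ^ j)⁻¹ ∈ ((Subgroup.zpowers g).topologicalClosure : Set H) := fun j =>
    Subgroup.inv_mem _ (hgj j)
  set L : Set (E n) := {x | x ∈ closedBall c r ∧ g ^ d • φ.symm x = φ.symm x ∧ x i = t} with hL
  have hLc : IsCompact L := by
    have h1 : L = (closedBall c r ∩ φ.symm ⁻¹' {z : X | g ^ d • z = z}) ∩ {x : E n | x i = t} := by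
      ext x
      simp only [hL, mem_ofPred_eq, mem_inter_iff, mem_preimage]
      tauto
    rw [h1]
    refine IsCompact.of_isClosed_subset (isCompact_closedBall c r) ?_
      (inter_subset_left.trans inter_subset_left)
    refine IsClosed.inter ?_ (isClosed_eq (by fun_prop) continuous_const)
    refine (φ.continuousOn_symm.mono (hc2.trans (h24.trans ht))).preimage_isClosed_of_isClosed
      isClosed_closedBall ?_
    exact isClosed_eq (continuous_const_smul _) continuous_id
  have hL4 : ∀ x ∈ L, x ∈ closedBall (0 : E n) 4 := fun x hx => h24 (hc2 hx.1)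
  have hfc : ContinuousOn (fun x => A (ContinuousMap.id _) x + A (δ0 : C(E n, E n)) x) L :=
    ((hA1 _).mono hL4).add ((hA1 _).mono hL4)
  obtain ⟨η, hηc, hηε, hηy⟩ := miss hLc (fun x hx => hx.2.2) hfc y hε
  -- the translates
  let τ : ℕ → E n → E n := fun j v => φ (g ^ j • φ.symm v)
  let σ : ℕ → E n → E n := fun j v => φ ((g ^ j)⁻¹ • φ.symm v)
  have hτsrc : ∀ j, ∀ v ∈ closedBall (0 : E n) 4, g ^ j • φ.symm v ∈ φ.source := fun j v hv =>
    (hsm _ (hgj j) v hv).1
  have hτc : ∀ j, ContinuousOn (τ j) (closedBall 0 4) := fun j =>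
    φ.continuousOn.comp ((φ.continuousOn_symm.mono ht).const_smul _) fun v hv => hτsrc j v hv
  have hσc : ∀ j, ContinuousOn (σ j) (closedBall 0 4) := fun j =>
    φ.continuousOn.comp ((φ.continuousOn_symm.mono ht).const_smul _)
      fun v hv => (hsm _ (hgj' j) v hv).1
  have hτsymm : ∀ j, ∀ v ∈ closedBall (0 : E n) 4, φ.symm (τ j v) = g ^ j • φ.symm v :=
    fun j v hv => φ.left_inv (hτsrc j v hv)
  have hτn : ∀ j, ∀ v ∈ L, ‖τ j v‖ ≤ 9 / 4 := by
    intro j v hv
    have h1 := (hsm _ (hgj j) v (hL4 v hv)).2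
    have h2 : ‖v‖ ≤ 2 := by simpa using hc2 hv.1
    rw [dist_eq_norm] at h1
    calc ‖τ j v‖ = ‖(τ j v - v) + v‖ := by congr 1; abel
      _ ≤ ‖τ j v - v‖ + ‖v‖ := norm_add_le _ _
      _ ≤ 9 / 4 := by
        have h3 : ‖τ j v - v‖ ≤ 1 / 4 := h1
        linarith
  have hτ4 : ∀ j, ∀ v ∈ L, τ j v ∈ closedBall (0 : E n) 4 := fun j v hv => by
    have := hτn j v hv
    simp only [mem_closedBall, dist_zero_right]
    linarith
  have hστ : ∀ j, ∀ v ∈ L, σ j (τ j v) = v := by
    intro j v hv
    show φ ((g ^ j)⁻¹ • φ.symm (τ j v)) = v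
    rw [hτsymm j v (hL4 v hv), inv_smul_smul]
    exact φ.right_inv (ht (hL4 v hv))
  -- uniqueness
  have huniq : ∀ j < d, ∀ j' < d, ∀ u ∈ L, ∀ u' ∈ L, τ j u = τ j' u' → u = u' := by
    have key : ∀ j j' : ℕ, j ≤ j' → j' < d → ∀ u ∈ L, ∀ u' ∈ L, τ j u = τ j' u' → u = u' := by
      intro j j' hjj hj' u hu u' hu' he
      have h1 := congrArg φ.symm he
      rw [hτsymm j u (hL4 u hu), hτsymm j' u' (hL4 u' hu')] at h1
      have h2 : φ.symm u = g ^ (j' - j) • φ.symm u' := by
        have h3 : g ^ j' = g ^ j * g ^ (j' - j) := by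
          rw [← pow_add]
          congr 1
          omega
        rw [h3, mul_smul] at h1
        exact MulAction.injective (g ^ j) h1
      have h4 : u = φ (g ^ (j' - j) • φ.symm u') := by
        rw [← h2, φ.right_inv (ht (hL4 u hu))]
      rcases Nat.eq_zero_or_pos (j' - j) with h0 | h0
      · rw [h0, pow_zero, one_smul, φ.right_inv (ht (hL4 u' hu'))] at h4
        exact h4
      · exfalso
        apply hcj (j' - j) h0 (by omega) u' hu'.1
        rw [← h4]
        exact hu.1
    intro j hj j' hj' u hu u' hu' he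
    rcases le_total j j' with h | h
    · exact key j j' h hj' u hu u' hu' he
    · exact (key j' j h hj u' hu' u hu he.symm).symm
  -- disjointness from `W`
  have hW : ∀ j, ∀ u ∈ L, τ j u ∉ Wset n φ g := by
    intro j u hu hw
    rcases hw with hw | ⟨-, hw⟩
    · have h1 := hτn j u hu
      have h2 : 5 / 2 ≤ ‖τ j u‖ := hw
      linarith
    · rw [mem_preimage, hτsymm j u (hL4 u hu)] at hw
      refine Set.disjoint_left.1 hcW hu.1 (Or.inr ⟨hL4 u hu, ?_⟩)
      rcases hw with hw | hw
      · left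
        have h1 := clI_zpow (g := g) (-(j : ℤ)) hw
        rw [zpow_neg, zpow_natCast, inv_smul_smul] at h1
        exact h1
      · right
        have h1 : g • g ^ j • φ.symm u = g ^ j • φ.symm u := hw
        show g • φ.symm u = φ.symm u
        apply MulAction.injective (g ^ j)
        show g ^ j • g • φ.symm u = g ^ j • φ.symm u
        rw [smul_smul, ← pow_succ, pow_succ', mul_smul]
        exact h1
  -- the function on the translates
  let P : E n → Prop := fun w => ∃ u, u ∈ L ∧ ∃ j, j < d ∧ τ j u = w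
  let η' : E n → E n := fun w => if h : P w then η h.choose else 0
  have hη'1 : ∀ j < d, ∀ u ∈ L, η' (τ j u) = η u := by
    intro j hj u hu
    have hP : P (τ j u) := ⟨u, hu, j, hj, rfl⟩
    have h1 : η' (τ j u) = η hP.choose := dif_pos hP
    rw [h1]
    obtain ⟨h2, j', hj', h3⟩ := hP.choose_spec
    rw [huniq j' hj' j hj _ h2 u hu h3]
  have hη'0 : ∀ w ∈ Wset n φ g, η' w = 0 := by
    intro w hw
    refine dif_neg ?_
    rintro ⟨u, hu, j, hj, rfl⟩
    exact hW j u hu hw
  set D : Set (E n) := ⋃ j : Fin d, τ j '' L with hD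
  have hDc : ∀ j : Fin d, IsCompact (τ j '' L) := fun j =>
    hLc.image_of_continuousOn ((hτc j).mono hL4)
  have hDcl : IsClosed D := isClosed_iUnion_of_finite fun j => (hDc j).isClosed
  have hη'D : ContinuousOn η' D := by
    refine LocallyFinite.continuousOn_iUnion (locallyFinite_of_finite _)
      (fun j => (hDc j).isClosed) fun j => ?_
    have h1 : ContinuousOn (fun w => η (σ j w)) (τ j '' L) := by
      refine hηc.comp ((hσc j).mono ?_) ?_
      · rintro _ ⟨u, hu, rfl⟩
        exact hτ4 j u hu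
      · rintro _ ⟨u, hu, rfl⟩
        rw [hστ j u hu]
        exact hu
    refine h1.congr ?_
    rintro _ ⟨u, hu, rfl⟩
    simp only
    rw [hη'1 j j.2 u hu, hστ j u hu]
  have hη'W : ContinuousOn η' (Wset n φ g) :=
    (continuousOn_const (c := (0 : E n))).congr hη'0
  have hWcl : IsClosed (Wset n φ g) := isClosed_Wset ht
  have hη'C : ContinuousOn η' (Wset n φ g ∪ D) := hη'W.union_of_isClosed hη'D hWcl hDcl
  have hbd : ∀ w ∈ Wset n φ g ∪ D, ‖η' w‖ ≤ ε := by
    rintro w (hw | hw)
    · rw [hη'0 w hw, norm_zero]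
      exact hε.le
    · obtain ⟨j, u, hu, rfl⟩ := mem_iUnion.1 hw
      rw [hη'1 j j.2 u hu]
      exact hηε u hu
  let f : (Wset n φ g ∪ D : Set (E n)) →ᵇ E n :=
    BoundedContinuousFunction.ofNormedAddCommGroup (fun w => η' w)
      (continuousOn_iff_continuous_domRestrict.1 hη'C) ε (fun w => hbd w w.2)
  obtain ⟨δ, hδn, hδf⟩ := BoundedContinuousFunction.exists_norm_eq_domRestrict_eq
    (hWcl.union hDcl) ℝ f
  have hfn : ‖f‖ ≤ ε := BoundedContinuousFunction.norm_ofNormedAddCommGroup_le _ hε.le _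
  have hδv : ∀ w ∈ Wset n φ g ∪ D, δ w = η' w := by
    intro w hw
    have := DFunLike.congr_fun hδf ⟨w, hw⟩
    exact this
  refine ⟨δ0 + δ, ?_, ?_, ?_⟩
  · intro w hw
    rw [BoundedContinuousFunction.add_apply, hδ0 w hw, hδv w (Or.inl hw), hη'0 w hw, add_zero]
  · rw [add_sub_cancel_left, hδn]
    exact hfn
  · intro x hx1 hx2 hx3
    have hxL : x ∈ L := ⟨hx1, hx2, hx3⟩
    have h1 : ((δ0 + δ : E n →ᵇ E n) : C(E n, E n)) = (δ0 : C(E n, E n)) + (δ : C(E n, E n)) := by
      ext1 w
      rfl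
    rw [h1, hA3 _ _ x (hL4 x hxL)]
    have h2 : A (δ : C(E n, E n)) x = η x := by
      apply hA5 _ _ x (hL4 x hxL)
      intro k hk
      obtain ⟨j, hj, hkj⟩ := orb hd hx2 hk
      rw [hkj]
      have h3 : τ j x ∈ D := mem_iUnion.2 ⟨⟨j, hj⟩, x, hxL, rfl⟩
      have h4 := hδv (τ j x) (Or.inr h3)
      rw [hη'1 j hj x hxL] at h4
      exact h4
    rw [h2, ← add_assoc]
    exact hηy x hxL

end

end Pool.Agent.N512.HS
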