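import Pool.Agent.N512.HS.A3

/-!
# Good maps from averages whose fibres are small on the closure of the infinite orbits
-/

set_option autoImplicit false
set_option linter.unusedSectionVars false

open MeasureTheory Set Metric Filter Topology TopologicalSpace
open scoped ENNReal NNReal BoundedContinuousFunction

namespace Pool.Agent.N512.HS

open Pool.Agent.Y485.HS Pool.Agent.Y489.SP Pool.Agent.Y475.HS Pool.Agent.R775.HS
  Pool.Agent.R775.HC

section
variable {X : Type} [TopologicalSpace X] {H : Type} [Group H] [TopologicalSpace H]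
  [IsTopologicalGroup H] [MulAction H X] [ContinuousSMul H X]
variable {n : ℕ} {φ : OpenPartialHomeomorph X (E n)} {g : H}

/-- admissible balls exist around the points of finite orbit -/
theorem exists_adm [T2Space X] (ht : closedBall (0 : E n) 4 ⊆ φ.target)
    (hs : Small φ ((Subgroup.zpowers g).topologicalClosure : Set H)) {v : E n}
    (hv : ‖v‖ < 2) (hvW : v ∉ Wset n φ g) :
    ∃ (a : ℕ) (r : ℚ) (d : ℕ), Adm n φ g (denseSeq (E n) a) (r : ℝ) d ∧
      v ∈ closedBall (denseSeq (E n) a) (r : ℝ) ∧ g ^ d • φ.symm v = φ.symm v := by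
  classical
  have hv4 : v ∈ closedBall (0 : E n) 4 := by
    simp only [mem_closedBall, dist_zero_right]; linarith
  have hnI : ¬ InfOrbit g (φ.symm v) := fun h => hvW (Or.inr ⟨hv4, Or.inl (subset_closure h)⟩)
  simp only [InfOrbit, not_forall, not_not] at hnI
  have hex : ∃ d : ℕ, 0 < d ∧ g ^ d • φ.symm v = φ.symm v := by
    obtain ⟨m, hm, h⟩ := hnI
    exact ⟨m, hm, h⟩
  obtain ⟨d, hd, hdmin⟩ : ∃ d : ℕ, (0 < d ∧ g ^ d • φ.symm v = φ.symm v) ∧
      ∀ j, 0 < j → j < d → g ^ j • φ.symm v ≠ φ.symm v :=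
    ⟨Nat.find hex, Nat.find_spec hex, fun j hj hjd h => Nat.find_min hex hjd ⟨hj, h⟩⟩
  have hgj : ∀ j : ℕ, g ^ j ∈ ((Subgroup.zpowers g).topologicalClosure : Set H) := fun j =>
    Subgroup.le_topologicalClosure _ (Subgroup.npow_mem_zpowers g j)
  have hev : ∀ j : ℕ, ∃ ρ : ℝ, 0 < ρ ∧ (0 < j → j < d → ∀ u ∈ closedBall v ρ,
      φ (g ^ j • φ.symm u) ∉ closedBall v ρ) := by
    intro j
    by_cases hj : 0 < j ∧ j < d
    · have hne : φ (g ^ j • φ.symm v) ≠ v := by
        intro h
        apply hdmin j hj.1 hj.2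
        have h1 := congrArg φ.symm h
        rwa [φ.left_inv (hs.2 _ (hgj j) v hv4).1] at h1
      have hpos : 0 < dist (φ (g ^ j • φ.symm v)) v := dist_pos.2 hne
      have hcont : ContinuousAt (fun u => φ (g ^ j • φ.symm u)) v := by
        have h1 : ContinuousAt φ.symm v := φ.continuousAt_symm (ht hv4)
        have h2 : ContinuousAt (fun u => g ^ j • φ.symm u) v := h1.const_smul _
        exact ContinuousAt.comp (g := φ) (f := fun u => g ^ j • φ.symm u)
          (φ.continuousAt (hs.2 _ (hgj j) v hv4).1) h2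
      obtain ⟨ρ, hρ, hball⟩ := Metric.continuousAt_iff.1 hcont
        (dist (φ (g ^ j • φ.symm v)) v / 2) (by positivity)
      refine ⟨min (ρ / 2) (dist (φ (g ^ j • φ.symm v)) v / 4), lt_min (by positivity)
        (by positivity), fun _ _ u hu hcon => ?_⟩
      rw [mem_closedBall] at hu hcon
      have h1 : dist u v < ρ := lt_of_le_of_lt (hu.trans (min_le_left _ _)) (by linarith)
      have h2 := hball h1
      have h3 := hcon.trans (min_le_right _ _)
      have h4 := dist_triangle_left (φ (g ^ j • φ.symm v)) v (φ (g ^ j • φ.symm u))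
      linarith
    · exact ⟨1, one_pos, fun h1 h2 => absurd ⟨h1, h2⟩ hj⟩
  choose ρ hρ hρj using hev
  obtain ⟨ρ1, hρ1, -, hρ1j⟩ := exists_pos_le (Finset.range d) ρ (fun j _ => hρ j)
  obtain ⟨ρ2, hρ2, hρ2W⟩ := Metric.isOpen_iff.1 (isClosed_Wset (g := g) ht).isOpen_compl v hvW
  set ρ0 : ℝ := min ρ1 (min (ρ2 / 2) (2 - ‖v‖)) with hρ0
  have hρ0p : 0 < ρ0 := lt_min hρ1 (lt_min (by positivity) (by linarith))
  have hb1 : ρ0 ≤ ρ1 := min_le_left _ _
  have hb2 : ρ0 ≤ ρ2 / 2 := (min_le_right _ _).trans (min_le_left _ _)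
  have hb3 : ρ0 ≤ 2 - ‖v‖ := (min_le_right _ _).trans (min_le_right _ _)
  obtain ⟨r, hr1, hr2⟩ := exists_rat_btwn (show ρ0 / 4 < ρ0 / 2 by linarith)
  obtain ⟨c, hc, a, rfl⟩ := (denseRange_denseSeq (E n)).inter_open_nonempty (ball v (ρ0 / 4))
    isOpen_ball ⟨v, mem_ball_self (by positivity)⟩
  rw [mem_ball] at hc
  have hsub : closedBall (denseSeq (E n) a) (r : ℝ) ⊆ closedBall v ρ0 := by
    apply closedBall_subset_closedBall'
    linarith
  refine ⟨a, r, d, ⟨hd.1, ?_, ?_, ?_⟩, ?_, hd.2⟩
  · refine hsub.trans (closedBall_subset_closedBall' ?_)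
    rw [dist_zero_right]
    linarith
  · rw [Set.disjoint_left]
    intro u hu huW
    exact hρ2W (closedBall_subset_ball (by linarith) (hsub hu)) huW
  · intro j hj hjd u hu hcon
    have hle := hρ1j j (Finset.mem_range.2 hjd)
    exact hρj j hj hjd u (closedBall_subset_closedBall (by linarith) (hsub hu))
      (closedBall_subset_closedBall (by linarith) (hsub hcon))
  · rw [mem_closedBall, dist_comm]
    linarith

/-- The main lemma: if the average has small fibres on the closure of the set of the points of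
infinite orbit, there is a good map. -/
theorem exists_good_inf [T2Space X] [T2Space H]
    (hcomp : IsCompact ((Subgroup.zpowers g).topologicalClosure : Set H))
    (hs : Small φ ((Subgroup.zpowers g).topologicalClosure : Set H)) :
    ∃ F0 : E n → E n, ContinuousOn F0 (closedBall 0 4) ∧
      (∀ v ∈ closedBall (0 : E n) 4,
        (∀ k ∈ (Subgroup.zpowers g).topologicalClosure, k • φ.symm v = φ.symm v) → F0 v = v) ∧
      (∀ (Q : Set (E n)) (r b : ℝ) (σ : E n → E n), (∀ u ∈ Q, σ u ∈ closedBall (0 : E n) 4) →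
        (∀ q ∈ (Subgroup.zpowers g).topologicalClosure,
          Ener Q r b (fun u => φ (q • φ.symm (σ u)))) → Ener Q r b (fun u => F0 (σ u))) ∧
      ((∀ y ∈ ball (0 : E n) 1, ∀ ε : ℝ, 0 < ε → ∃ y' ∈ ball (0 : E n) 1, dist y' y < ε ∧
        ∀ C ⊆ closedBall (0 : E n) 3, IsPreconnected C →
          (∀ v ∈ C, φ.symm v ∈ closure {x : X | InfOrbit g x}) → (∀ v ∈ C, F0 v = y') →
          C.Subsingleton) → ∃ F : E n → E n, GoodMap φ g F) := by
  classical
  obtain ⟨A, hA1, hA2, hA3, hA4, hA5, hA6, hA7⟩ := exists_avgop hcomp hs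
  have ht := hs.1
  have hsm := hs.2
  have hgmem : g ∈ ((Subgroup.zpowers g).topologicalClosure : Set H) :=
    Subgroup.le_topologicalClosure _ (Subgroup.mem_zpowers g)
  have h34 : closedBall (0 : E n) 3 ⊆ closedBall 0 4 := closedBall_subset_closedBall (by norm_num)
  refine ⟨A (ContinuousMap.id _), hA1 _, ?_, fun Q r b σ hσ hE => hA7 Q r b σ hσ hE, ?_⟩
  · intro v hv hk
    refine hA5 _ _ v hv fun k hk' => ?_
    rw [hk k hk', φ.right_inv (ht hv)]
    rfl
  intro hyp
  -- the good values
  have hY : ∀ a b : ℕ, ∃ y' : E n, y' ∈ ball (0 : E n) 1 ∧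
      (denseSeq (E n) a ∈ ball (0 : E n) 1 → dist y' (denseSeq (E n) a) < 1 / ((b : ℝ) + 1)) ∧
      ∀ C ⊆ closedBall (0 : E n) 3, IsPreconnected C →
          (∀ v ∈ C, φ.symm v ∈ closure {x : X | InfOrbit g x}) →
          (∀ v ∈ C, A (ContinuousMap.id _) v = y') → C.Subsingleton := by
    intro a b
    by_cases ha : denseSeq (E n) a ∈ ball (0 : E n) 1
    · obtain ⟨y', h1, h2, h3⟩ := hyp _ ha (1 / ((b : ℝ) + 1)) (by positivity)
      exact ⟨y', h1, fun _ => h2, h3⟩
    · obtain ⟨y', h1, h2, h3⟩ := hyp 0 (mem_ball_self one_pos) 1 one_pos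
      exact ⟨y', h1, fun h => absurd h ha, h3⟩
  choose Y hY1 hY2 hY3 using hY
  -- the Baire space of perturbations
  let 𝒟 : Set (E n →ᵇ E n) := {δ | ∀ w ∈ Wset n φ g, δ w = 0}
  have h𝒟c : IsClosed 𝒟 := by
    have h1 : 𝒟 = ⋂ w ∈ Wset n φ g, {δ : E n →ᵇ E n | δ w = 0} := by
      ext δ
      simp [𝒟]
    rw [h1]
    refine isClosed_biInter fun w _ => ?_
    have hc : Continuous (fun δ : E n →ᵇ E n => δ w) :=
      (BoundedContinuousFunction.evalCLM ℝ w).continuous
    exact isClosed_eq hc continuous_const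
  have hcs : CompleteSpace 𝒟 := h𝒟c.completeSpace_coe
  let ι : Type := (ℕ × ℕ) × (ℕ × ℚ × ℕ) × (Fin n × ℚ)
  let G : ι → Set 𝒟 := fun q => {δ | Adm n φ g (denseSeq (E n) q.2.1.1) (q.2.1.2.1 : ℝ) q.2.1.2.2 →
    ∀ x ∈ closedBall (denseSeq (E n) q.2.1.1) (q.2.1.2.1 : ℝ),
      g ^ q.2.1.2.2 • φ.symm x = φ.symm x → x q.2.2.1 = (q.2.2.2 : ℝ) →
        A (ContinuousMap.id _) x + A ((δ : E n →ᵇ E n) : C(E n, E n)) x ≠ Y q.1.1 q.1.2}
  have hdiff : ∀ δ δ' : E n →ᵇ E n, ∀ x ∈ closedBall (0 : E n) 4,
      dist (A (δ : C(E n, E n)) x) (A (δ' : C(E n, E n)) x) ≤ dist δ δ' := by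
    intro δ δ' x hx
    have h1 : (δ : C(E n, E n)) = (δ' : C(E n, E n)) + ((δ - δ' : E n →ᵇ E n) : C(E n, E n)) := by
      ext1 w
      show δ w = δ' w + (δ w - δ' w)
      abel
    rw [h1, hA3 _ _ x hx, dist_eq_norm, add_sub_cancel_left, dist_eq_norm]
    exact hA4 _ _ x hx fun k _ => (δ - δ').norm_coe_le_norm _
  have hGo : ∀ q, IsOpen (G q) := by
    rintro ⟨⟨a, b⟩, ⟨c, r, d⟩, i, t⟩
    by_cases hadm : Adm n φ g (denseSeq (E n) c) (r : ℝ) d
    swap
    · have : G ((a, b), (c, r, d), i, t) = univ := by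
        ext δ
        simp only [G, mem_ofPred_eq, mem_univ, iff_true]
        exact fun h => absurd h hadm
      rw [this]
      exact isOpen_univ
    rw [Metric.isOpen_iff]
    intro δ hδ
    have hδ' := hδ hadm
    obtain ⟨hd, hc2, hcW, hcj⟩ := hadm
    have h24 : closedBall (0 : E n) 2 ⊆ closedBall 0 4 :=
      closedBall_subset_closedBall (by norm_num)
    set L : Set (E n) := {x | x ∈ closedBall (denseSeq (E n) c) (r : ℝ) ∧
      g ^ d • φ.symm x = φ.symm x ∧ x i = t} with hL
    have hLc : IsCompact L := by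
      have h1 : L = (closedBall (denseSeq (E n) c) (r : ℝ) ∩ φ.symm ⁻¹' {z : X | g ^ d • z = z}) ∩
          {x : E n | x i = t} := by
        ext x
        simp only [hL, mem_ofPred_eq, mem_inter_iff, mem_preimage]
        tauto
      rw [h1]
      refine IsCompact.of_isClosed_subset (isCompact_closedBall _ _) ?_
        (inter_subset_left.trans inter_subset_left)
      refine IsClosed.inter ?_ (isClosed_eq (by fun_prop) continuous_const)
      refine (φ.continuousOn_symm.mono (hc2.trans (h24.trans ht))).preimage_isClosed_of_isClosed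
        isClosed_closedBall ?_
      exact isClosed_eq (continuous_const_smul _) continuous_id
    have hL4 : ∀ x ∈ L, x ∈ closedBall (0 : E n) 4 := fun x hx => h24 (hc2 hx.1)
    rcases L.eq_empty_or_nonempty with he | hne
    · refine ⟨1, one_pos, fun δ1 _ _ x h1 h2 h3 => ?_⟩
      have : x ∈ L := ⟨h1, h2, h3⟩
      rw [he] at this
      exact this.elim
    · have hfc : ContinuousOn (fun x => dist (A (ContinuousMap.id _) x +
          A ((δ : E n →ᵇ E n) : C(E n, E n)) x) (Y a b)) L :=
        continuous_dist.comp_continuousOn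
          ((((hA1 _).mono hL4).add ((hA1 _).mono hL4)).prodMk continuousOn_const)
      obtain ⟨x0, hx0, hmin⟩ := hLc.exists_isMinOn hne hfc
      have hpos : 0 < dist (A (ContinuousMap.id _) x0 +
          A ((δ : E n →ᵇ E n) : C(E n, E n)) x0) (Y a b) :=
        dist_pos.2 (hδ' x0 hx0.1 hx0.2.1 hx0.2.2)
      refine ⟨_, hpos, fun δ1 hδ1 _ x h1 h2 h3 he => ?_⟩
      have hxL : x ∈ L := ⟨h1, h2, h3⟩
      have h4 : dist (A (ContinuousMap.id _) x0 +
          A ((δ : E n →ᵇ E n) : C(E n, E n)) x0) (Y a b) ≤ dist (A (ContinuousMap.id _) x +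
          A ((δ : E n →ᵇ E n) : C(E n, E n)) x) (Y a b) := hmin hxL
      have h5 := hdiff (δ1 : E n →ᵇ E n) δ x (hL4 x hxL)
      rw [mem_ball] at hδ1
      have h6 : dist (δ1 : E n →ᵇ E n) δ = dist δ1 δ := rfl
      rw [h6] at h5
      have h7 : dist (A (ContinuousMap.id _) x +
          A ((δ : E n →ᵇ E n) : C(E n, E n)) x) (Y a b) =
          dist (A ((δ1 : E n →ᵇ E n) : C(E n, E n)) x) (A ((δ : E n →ᵇ E n) : C(E n, E n)) x) := by
        rw [← he, dist_add_left, dist_comm]
      linarith
  have hGd : ∀ q, Dense (G q) := by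
    rintro ⟨⟨a, b⟩, ⟨c, r, d⟩, i, t⟩
    by_cases hadm : Adm n φ g (denseSeq (E n) c) (r : ℝ) d
    swap
    · have : G ((a, b), (c, r, d), i, t) = univ := by
        ext δ
        simp only [G, mem_ofPred_eq, mem_univ, iff_true]
        exact fun h => absurd h hadm
      rw [this]
      exact dense_univ
    rw [Metric.dense_iff]
    intro δ ε hε
    obtain ⟨δ1, h1, h2, h3⟩ := step hs hA1 hA3 hA5 hadm i t (Y a b) (δ : E n →ᵇ E n) δ.2
      (half_pos hε)
    refine ⟨⟨δ1, h1⟩, ?_, fun _ => h3⟩
    rw [mem_ball]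
    show dist δ1 (δ : E n →ᵇ E n) < ε
    rw [dist_eq_norm]
    linarith
  have hdense : Dense (⋂ q, G q) := dense_iInter_of_isOpen hGo hGd
  -- the margin
  obtain ⟨ε0, hε0, hmargin⟩ : ∃ ε0 : ℝ, 0 < ε0 ∧ ∀ v ∈ closedBall (0 : E n) 4,
      dist (A (ContinuousMap.id _) v) v ≤ 1 / 4 - ε0 := by
    have hc : ContinuousOn (fun v => dist (A (ContinuousMap.id _) v) v) (closedBall (0 : E n) 4) :=
      continuous_dist.comp_continuousOn ((hA1 _).prodMk continuousOn_id)
    obtain ⟨v0, hv0, hmax⟩ := (isCompact_closedBall (0 : E n) 4).exists_isMaxOn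
      ⟨0, mem_closedBall_self (by norm_num)⟩ hc
    refine ⟨1 / 4 - dist (A (ContinuousMap.id _) v0) v0, sub_pos.2 (hA6 v0 hv0), fun v hv => ?_⟩
    have h1 : dist (A (ContinuousMap.id _) v) v ≤ dist (A (ContinuousMap.id _) v0) v0 := hmax hv
    linarith
  obtain ⟨δ, hδ1, hδ2⟩ := hdense.inter_open_nonempty (ball (⟨0, fun _ _ => rfl⟩ : 𝒟) ε0)
    isOpen_ball ⟨_, mem_ball_self hε0⟩
  have hδn : ‖(δ : E n →ᵇ E n)‖ < ε0 := by
    rw [mem_ball] at hδ1
    have h1 : dist (δ : E n →ᵇ E n) 0 < ε0 := hδ1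
    rwa [dist_zero_right] at h1
  have hδG : ∀ q, δ ∈ G q := fun q => mem_iInter.1 hδ2 q
  have hAδ : ∀ v ∈ closedBall (0 : E n) 4, ‖A ((δ : E n →ᵇ E n) : C(E n, E n)) v‖ ≤ ε0 :=
    fun v hv => hA4 _ _ v hv fun k _ => ((δ : E n →ᵇ E n).norm_coe_le_norm _).trans hδn.le
  set F : E n → E n := fun v => A (ContinuousMap.id _) v +
    A ((δ : E n →ᵇ E n) : C(E n, E n)) v with hF
  have hFd : ∀ v ∈ closedBall (0 : E n) 4, dist (F v) v ≤ 1 / 4 := by
    intro v hv
    have h1 := hmargin v hv
    have h2 := hAδ v hv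
    rw [dist_eq_norm] at h1 ⊢
    calc ‖F v - v‖ = ‖(A (ContinuousMap.id _) v - v) +
          A ((δ : E n →ᵇ E n) : C(E n, E n)) v‖ := by
            have h5 : F v = A (ContinuousMap.id _) v + A ((δ : E n →ᵇ E n) : C(E n, E n)) v := rfl
            rw [h5]
            congr 1
            exact add_sub_right_comm _ _ _
      _ ≤ _ := norm_add_le _ _
      _ ≤ 1 / 4 := by linarith
  -- fixed points of the closure
  have hfixall : ∀ v ∈ closedBall (0 : E n) 4, g • φ.symm v = φ.symm v →
      ∀ k ∈ (Subgroup.zpowers g).topologicalClosure, k • φ.symm v = φ.symm v := by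
    intro v hv hgv k hk
    obtain ⟨j, hj, hkj⟩ := orb (d := 1) one_pos (by rw [pow_one]; exact hgv) hk
    have hj0 : j = 0 := by omega
    rw [hkj, hj0, pow_zero, one_smul]
  refine ⟨F, (hA1 _).add (hA1 _), hFd, ?_, ?_, ?_⟩
  · intro v hv
    show A _ _ + A _ _ = A _ _ + A _ _
    rw [hA2 _ v hv, hA2 _ v hv]
  · intro v hv hgv
    have hk := hfixall v (h34 hv) hgv
    show A _ v + A _ v = v
    rw [hA5 (ContinuousMap.id _) v v (h34 hv) fun k hk' => by
      rw [hk k hk', φ.right_inv (ht (h34 hv))]; rfl,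
      hA5 ((δ : E n →ᵇ E n) : C(E n, E n)) 0 v (h34 hv) fun k hk' => by
        rw [hk k hk', φ.right_inv (ht (h34 hv))]
        exact δ.2 v (Or.inr ⟨h34 hv, Or.inr hgv⟩), add_zero]
  · intro y hy ε hε
    obtain ⟨z, ⟨hz1, hz2⟩, a, rfl⟩ := (denseRange_denseSeq (E n)).inter_open_nonempty
      (ball y (ε / 2) ∩ ball 0 1) (isOpen_ball.inter isOpen_ball)
      ⟨y, mem_ball_self (by positivity), hy⟩
    obtain ⟨b, hb⟩ := exists_nat_one_div_lt (half_pos hε)
    refine ⟨Y a b, hY1 a b, ?_, ?_⟩
    · have h1 := hY2 a b hz2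
      rw [mem_ball] at hz1
      calc dist (Y a b) y ≤ dist (Y a b) (denseSeq (E n) a) + dist (denseSeq (E n) a) y :=
            dist_triangle _ _ _
        _ < ε := by linarith
    intro C hCc hCn hC3 hCy hCg
    by_contra hno
    push Not at hno
    have hyn : ‖Y a b‖ < 1 := by simpa using hY1 a b
    have hCnorm : ∀ v ∈ C, ‖v‖ < 2 := by
      intro v hv
      have h1 := hFd v (h34 (hC3 hv))
      rw [hCy v hv, dist_eq_norm] at h1
      calc ‖v‖ = ‖Y a b - (Y a b - v)‖ := by congr 1; abel
        _ ≤ ‖Y a b‖ + ‖Y a b - v‖ := norm_sub_le _ _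
        _ < 2 := by linarith
    -- the cover
    have hCcomp : CompactSpace C := isCompact_iff_compactSpace.1 hCc
    have hCconn : PreconnectedSpace C := Subtype.preconnectedSpace hCn.isPreconnected
    have hcs : Continuous (fun v : C => φ.symm (v : E n)) :=
      φ.continuousOn_symm.comp_continuous continuous_subtype_val
        (fun v => ht (h34 (hC3 v.2)))
    let κ : Type := Option (ℕ × ℚ × ℕ)
    let f : κ → Set C := fun q => match q with
      | none => {v | φ.symm (v : E n) ∈ closure {x : X | InfOrbit g x}}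
      | some (c, r, d) => {v | Adm n φ g (denseSeq (E n) c) (r : ℝ) d ∧
          (v : E n) ∈ closedBall (denseSeq (E n) c) (r : ℝ) ∧
          g ^ d • φ.symm (v : E n) = φ.symm v}
    have hsub : Subsingleton C := by
      refine subsingleton_of_cover f ?_ ?_ ?_
      · rintro (_ | ⟨c, r, d⟩)
        · exact isClosed_closure.preimage hcs
        · by_cases hadm : Adm n φ g (denseSeq (E n) c) (r : ℝ) d
          · have h1 : f (some (c, r, d)) = (Subtype.val ⁻¹' closedBall (denseSeq (E n) c) (r : ℝ)) ∩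
                {v : C | g ^ d • φ.symm (v : E n) = φ.symm v} := by
              ext v
              simp only [f, mem_ofPred_eq, mem_inter_iff, mem_preimage]
              tauto
            rw [h1]
            exact (isClosed_closedBall.preimage continuous_subtype_val).inter
              (isClosed_eq (hcs.const_smul _) hcs)
          · have h1 : f (some (c, r, d)) = ∅ := by
              ext v
              simp only [f, mem_ofPred_eq, mem_empty_iff_false, iff_false, not_and]
              exact fun h => absurd h hadm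
            rw [h1]
            exact isClosed_empty
      · ext v
        simp only [mem_iUnion, mem_univ, iff_true]
        by_cases hvI : φ.symm (v : E n) ∈ closure {x : X | InfOrbit g x}
        · exact ⟨none, hvI⟩
        · have hvW : (v : E n) ∉ Wset n φ g := by
            rintro (h1 | ⟨-, h1 | h1⟩)
            · have h2 := hCnorm v v.2
              have h3 : 5 / 2 ≤ ‖(v : E n)‖ := h1
              linarith
            · exact hvI h1
            · exact hno v v.2 h1
          obtain ⟨c, r, d, h1, h2, h3⟩ := exists_adm ht hs (hCnorm v v.2) hvW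
          exact ⟨some (c, r, d), h1, h2, h3⟩
      · rintro (_ | ⟨c, r, d⟩) S hS hSp
        · have h1 : (Subtype.val '' S : Set (E n)).Subsingleton := by
            refine hY3 a b _ ?_ (hSp.image _ continuous_subtype_val.continuousOn) ?_ ?_
            · rintro _ ⟨v, -, rfl⟩
              exact hC3 v.2
            · rintro _ ⟨v, hv, rfl⟩
              exact hS hv
            · rintro _ ⟨v, hv, rfl⟩
              have h2 := hCy v v.2
              have hv4 := h34 (hC3 v.2)
              have h3 : A ((δ : E n →ᵇ E n) : C(E n, E n)) (v : E n) = 0 := by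
                refine hA5 _ _ _ hv4 fun k hk => ?_
                refine δ.2 _ (Or.inr ⟨?_, Or.inl ?_⟩)
                · have h4 := (hsm k hk v hv4).2
                  have h5 : ‖(v : E n)‖ ≤ 3 := by simpa using hC3 v.2
                  rw [dist_eq_norm] at h4
                  simp only [mem_closedBall, dist_zero_right]
                  calc ‖φ (k • φ.symm (v : E n))‖ =
                        ‖(φ (k • φ.symm (v : E n)) - v) + v‖ := by congr 1; abel
                    _ ≤ _ := norm_add_le _ _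
                    _ ≤ 4 := by linarith
                · show φ.symm (φ (k • φ.symm (v : E n))) ∈ closure {x : X | InfOrbit g x}
                  rw [φ.left_inv (hsm k hk v hv4).1]
                  exact clI_closure hk (hS hv)
              have h6 : A (ContinuousMap.id _) (v : E n) +
                A ((δ : E n →ᵇ E n) : C(E n, E n)) (v : E n) = Y a b := h2
              rw [h3, add_zero] at h6
              exact h6
          intro u hu w hw
          exact Subtype.ext (h1 ⟨u, hu, rfl⟩ ⟨w, hw, rfl⟩)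
        · intro u hu w hw
          have hadm : Adm n φ g (denseSeq (E n) c) (r : ℝ) d := (hS hu).1
          refine Subtype.ext (PiLp.ext fun i => ?_)
          by_contra hne
          have hIm : IsPreconnected ((fun z : C => (z : E n) i) '' S) :=
            hSp.image _ (by fun_prop : Continuous (fun z : C => (z : E n) i)).continuousOn
          have hord : ((fun z : C => (z : E n) i) '' S).OrdConnected := hIm.ordConnected
          have hbtw : ∀ u ∈ S, ∀ w ∈ S, (u : E n) i < (w : E n) i → False := by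
            intro u hu w hw huw
            obtain ⟨t, ht1, ht2⟩ := exists_rat_btwn huw
            obtain ⟨z, hz, hzt⟩ := hord.out (mem_image_of_mem _ hu) (mem_image_of_mem _ hw)
              ⟨ht1.le, ht2.le⟩
            have h1 := hδG ((a, b), (c, r, d), i, t) hadm z (hS hz).2.1 (hS hz).2.2 hzt
            exact h1 (hCy z z.2)
          rcases lt_or_gt_of_ne hne with h3 | h3
          · exact hbtw u hu w hw h3
          · exact hbtw w hw u hu h3
    obtain ⟨v, hv⟩ := hCn.nonempty
    apply hno v hv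
    have h1 : φ (g • φ.symm v) ∈ C := by
      have h2 : (fun v => φ (g • φ.symm v)) v ∈ (fun v => φ (g • φ.symm v)) '' C :=
        mem_image_of_mem _ hv
      rw [hCg] at h2
      exact h2
    have h2 : (⟨_, h1⟩ : C) = ⟨v, hv⟩ := hsub.elim _ _
    have h3 : φ (g • φ.symm v) = v := congrArg Subtype.val h2
    have h4 := congrArg φ.symm h3
    rwa [φ.left_inv (hsm g hgmem v (h34 (hC3 hv))).1] at h4

end

end Pool.Agent.N512.HS
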