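import Pool.Agent.N512.HS.A4
import Pool.Agent.R775.HC.C5

/-!
# Generators of monothetic groups; pieces on which a power acts trivially
-/

set_option autoImplicit false
set_option linter.unusedSectionVars false

open MeasureTheory Set Metric Filter Topology TopologicalSpace
open scoped ENNReal NNReal

namespace Pool.Agent.N512.HS

open Pool.Agent.Y485.HS Pool.Agent.Y489.SP Pool.Agent.Y475.HS Pool.Agent.R775.HS
  Pool.Agent.R775.HC

section
variable {X : Type} [TopologicalSpace X] [T2Space X] {H : Type} [Group H] [TopologicalSpace H]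
  [IsTopologicalGroup H] [MulAction H X] [ContinuousSMul H X]

theorem inf_of_mem {g h : H} (hh : h ∈ (Subgroup.zpowers g).topologicalClosure) {x : X}
    (hx : InfOrbit h x) : InfOrbit g x := by
  intro m hm he
  apply hx m hm
  have hc : Continuous (fun k : H => k ^ m • x) := by fun_prop
  have h1 : IsClosed {k : H | k ^ m • x = x} := isClosed_eq hc continuous_const
  rw [← SetLike.mem_coe, Subgroup.topologicalClosure_coe] at hh
  refine closure_minimal ?_ h1 hh
  rintro _ ⟨j, rfl⟩
  show (g ^ j) ^ m • x = x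
  have h2 : (g ^ j) ^ m = (g ^ m) ^ j := by
    rw [← zpow_natCast, ← zpow_mul, mul_comm, zpow_mul, zpow_natCast]
  rw [h2]
  have h3 : g ^ m ∈ MulAction.stabilizer H x := he
  exact (MulAction.stabilizer H x).zpow_mem h3 j

theorem inf_pow {g : H} {M : ℕ} (hM : 0 < M) {x : X} (hx : InfOrbit g x) :
    InfOrbit (g ^ M) x := by
  intro m hm he
  rw [← pow_mul] at he
  exact hx _ (Nat.mul_pos hM hm) he

theorem fix_closure {g k : H} (hk : k ∈ (Subgroup.zpowers g).topologicalClosure) {x : X}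
    (hx : g • x = x) : k • x = x := by
  have hc : Continuous (fun k : H => k • x) := by fun_prop
  have h1 : IsClosed {k : H | k • x = x} := isClosed_eq hc continuous_const
  rw [← SetLike.mem_coe, Subgroup.topologicalClosure_coe] at hk
  refine closure_minimal ?_ h1 hk
  rintro _ ⟨j, rfl⟩
  have h3 : g ∈ MulAction.stabilizer H x := hx
  exact (MulAction.stabilizer H x).zpow_mem h3 j

end

/-- the products of `g` with the elements of the closure of the powers of `g ^ p` are generators -/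
theorem gen_mem {S : Type} [Group S] [TopologicalSpace S] [IsTopologicalGroup S] [CompactSpace S]
    [T2Space S] [TotallyDisconnectedSpace S] {p : ℕ} {g d : S}
    (hg : Tendsto (fun j : ℕ => g ^ p ^ j) atTop (𝓝 1))
    (hd : d ∈ (Subgroup.zpowers (g ^ p)).topologicalClosure) :
    g ∈ (Subgroup.zpowers (g * d)).topologicalClosure := by
  rw [← SetLike.mem_coe, Subgroup.topologicalClosure_coe, _root_.mem_closure_iff]
  intro W hW hgW
  have hc1 : Continuous (fun u : S => g * u) := by fun_prop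
  obtain ⟨U, hU⟩ := ProfiniteGrp.exist_openNormalSubgroup_sub_open_nhds_of_one
    (hW.preimage hc1) (by rw [mem_preimage, mul_one]; exact hgW)
  have hUn : U.toSubgroup.Normal := U.isNormal'
  have hUo : IsOpen (U.toSubgroup : Set S) := U.isOpen'
  -- an approximation of `d`
  obtain ⟨t, ht⟩ : ∃ t : ℤ, ((g ^ p) ^ t)⁻¹ * d ∈ U.toSubgroup := by
    rw [← SetLike.mem_coe, Subgroup.topologicalClosure_coe, _root_.mem_closure_iff] at hd
    have hc2 : Continuous (fun u : S => u⁻¹ * d) := by fun_prop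
    obtain ⟨_, h1, ⟨t, rfl⟩⟩ := hd _ (hUo.preimage hc2) (by
      show d⁻¹ * d ∈ (U.toSubgroup : Set S)
      rw [inv_mul_cancel]
      exact U.toSubgroup.one_mem)
    exact ⟨t, h1⟩
  obtain ⟨j, hj⟩ : ∃ j : ℕ, g ^ p ^ j ∈ U.toSubgroup :=
    (hg.eventually (hUo.mem_nhds U.toSubgroup.one_mem)).exists
  have hcop : IsCoprime (1 + (p : ℤ) * t) ((p : ℤ) ^ j) := by
    apply IsCoprime.pow_right
    refine ⟨1, -t, ?_⟩
    ring
  obtain ⟨a, b, hab⟩ := hcop
  refine ⟨(g * d) ^ a, ?_, ⟨a, rfl⟩⟩
  have hmem : g⁻¹ * (g * d) ^ a ∈ U.toSubgroup := by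
    rw [← QuotientGroup.eq]
    have hd' : (d : S ⧸ U.toSubgroup) = ((g : S ⧸ U.toSubgroup) ^ p) ^ t := by
      have h1 := (QuotientGroup.eq (s := U.toSubgroup)).2 ht
      rw [← h1]
      simp
    have hg' : (g : S ⧸ U.toSubgroup) ^ p ^ j = 1 := by
      rw [← QuotientGroup.mk_pow, QuotientGroup.eq_one_iff]
      exact hj
    rw [QuotientGroup.mk_zpow, QuotientGroup.mk_mul, hd']
    set γ : S ⧸ U.toSubgroup := (g : S ⧸ U.toSubgroup)
    have h2 : γ * (γ ^ p) ^ t = γ ^ (1 + (p : ℤ) * t) := by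
      rw [zpow_add, zpow_mul, zpow_one, zpow_natCast]
    have h3 : (γ ^ (1 + (p : ℤ) * t)) ^ a = γ := by
      have h4 : γ = γ ^ (a * (1 + (p : ℤ) * t) + b * (p : ℤ) ^ j) := by rw [hab, zpow_one]
      have h5 : γ ^ (b * (p : ℤ) ^ j) = 1 := by
        rw [mul_comm, zpow_mul]
        have h6 : γ ^ ((p : ℤ) ^ j) = 1 := by
          have := hg'
          rw [← zpow_natCast] at this
          push_cast at this
          exact this
        rw [h6, one_zpow]
      have h7 : γ ^ (a * (1 + (p : ℤ) * t) + b * (p : ℤ) ^ j) = γ ^ (a * (1 + (p : ℤ) * t)) := by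
        rw [zpow_add, h5, mul_one]
      rw [h7] at h4
      rw [← zpow_mul, mul_comm]
      exact h4.symm
    rw [h2, h3]
  have h7 := hU hmem
  rw [mem_preimage, mul_inv_cancel_left] at h7
  exact h7

section
variable {n : ℕ} {X : Type} [TopologicalSpace X]

theorem cont_image {φ φ' : OpenPartialHomeomorph X (E n)} {B : Set (E n)}
    (ht : closedBall (0 : E n) 4 ⊆ φ'.target) (hsrc : φ'.source ⊆ φ.source ∩ φ ⁻¹' B)
    {C : Set (E n)} (hC : C ⊆ closedBall 0 3) (hCp : IsPreconnected C) :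
    IsPreconnected ((fun v => φ (φ'.symm v)) '' C) ∧ (fun v => φ (φ'.symm v)) '' C ⊆ B ∧
      (∀ v ∈ C, φ.symm (φ (φ'.symm v)) = φ'.symm v) ∧
      (((fun v => φ (φ'.symm v)) '' C).Subsingleton → C.Subsingleton) := by
  have h34 : closedBall (0 : E n) 3 ⊆ closedBall 0 4 := closedBall_subset_closedBall (by norm_num)
  have h1 : ∀ v ∈ C, φ'.symm v ∈ φ.source ∩ φ ⁻¹' B := fun v hv =>
    hsrc (φ'.map_target (ht (h34 (hC hv))))
  have h2 : ∀ v ∈ C, φ.symm (φ (φ'.symm v)) = φ'.symm v := fun v hv => φ.left_inv (h1 v hv).1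
  refine ⟨hCp.image _ ?_, ?_, h2, ?_⟩
  · refine φ.continuousOn.comp (φ'.continuousOn_symm.mono fun v hv => ht (h34 (hC hv))) ?_
    exact fun v hv => (h1 v hv).1
  · rintro _ ⟨v, hv, rfl⟩
    exact (h1 v hv).2
  · intro hsub a ha b hb
    have h3 := hsub (mem_image_of_mem _ ha) (mem_image_of_mem _ hb)
    have h4 : φ.symm (φ (φ'.symm a)) = φ.symm (φ (φ'.symm b)) := congrArg φ.symm h3
    rw [h2 a ha, h2 b hb] at h4
    have h5 := congrArg φ' h4
    rwa [φ'.right_inv (ht (h34 (hC ha))), φ'.right_inv (ht (h34 (hC hb)))] at h5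

/-- the charts with domain in the preimage of `B` under the chart `φ` -/
theorem stable_src (φ : OpenPartialHomeomorph X (E n)) (B : Set (E n)) :
    Stable n {φ' : OpenPartialHomeomorph X (E n) | φ'.source ⊆ φ.source ∩ φ ⁻¹' B} := by
  rintro φ' h1 e -
  have hsub : (φ'.trans e).source ⊆ φ'.source := by
    rw [OpenPartialHomeomorph.trans_source]
    exact inter_subset_left
  exact hsub.trans h1

/-- if a power of `g` fixes all nontrivial continua of the closure of the set of the points of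
infinite orbit in an open set, the open set contains no points of infinite orbit -/
theorem no_fix (hn : 1 ≤ n) [T2Space X] {S : Type} [Group S] [TopologicalSpace S]
    [IsTopologicalGroup S] [CompactSpace S] [T2Space S] [TotallyDisconnectedSpace S]
    [MulAction S X] [ContinuousSMul S X] {φ : OpenPartialHomeomorph X (E n)} {p : ℕ}
    (hp : p.Prime) {g : S} (hg : Tendsto (fun j : ℕ => g ^ p ^ j) atTop (𝓝 1)) {B : Set (E n)}
    (hBo : IsOpen B) (hBt : B ⊆ φ.target) {M : ℕ} (hM : 0 < M)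
    (hfix : ∀ C ⊆ B, IsPreconnected C →
      (∀ v ∈ C, φ.symm v ∈ closure {x : X | InfOrbit g x}) → ¬ C.Subsingleton →
        ∀ v ∈ C, g ^ M • φ.symm v = φ.symm v) {v1 : E n} (hv1 : v1 ∈ B) :
    φ.symm v1 ∉ closure {x : X | InfOrbit g x} := by
  intro hv1Z
  set D : Subgroup S := (Subgroup.zpowers (g ^ M)).topologicalClosure with hD
  have hDc : IsClosed (D : Set S) := Subgroup.isClosed_topologicalClosure _
  have : CompactSpace D := isCompact_iff_compactSpace.1 hDc.isCompact
  have hgMg : g ^ M ∈ (Subgroup.zpowers g).topologicalClosure :=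
    Subgroup.le_topologicalClosure _ (Subgroup.npow_mem_zpowers g M)
  have hcrit : ∀ h : D, Crit {φ' : OpenPartialHomeomorph X (E n) |
      φ'.source ⊆ φ.source ∩ φ ⁻¹' B} h := by
    intro h p' _ _ hcomp φ' hφ' hs
    obtain ⟨F0, h1, h2, h3, h4⟩ := exists_good_inf (H := D) hcomp hs
    apply h4
    intro y hy ε hε
    refine ⟨y, hy, by rwa [dist_self], ?_⟩
    intro C hC3 hCp hCZ hCy
    by_contra hns
    obtain ⟨i1, i2, i3, i4⟩ := cont_image (φ := φ) (B := B) hs.1 hφ' hC3 hCp
    have hsub : {x : X | InfOrbit h x} ⊆ {x : X | InfOrbit g x} := by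
      intro x hx
      have hx' : InfOrbit (h : S) x := hx
      exact inf_of_mem hgMg (inf_of_mem h.2 hx')
    have hfx := hfix _ i2 i1 (by
      rintro _ ⟨v, hv, rfl⟩
      rw [i3 v hv]
      exact closure_mono hsub (hCZ v hv)) (fun h => hns (i4 h))
    apply hns
    have hCy' : ∀ v ∈ C, v = y := by
      intro v hv
      rw [← hCy v hv]
      symm
      refine h2 v (closedBall_subset_closedBall (by norm_num) (hC3 hv)) fun k _ => ?_
      have h5 : g ^ M • φ.symm (φ (φ'.symm v)) = φ.symm (φ (φ'.symm v)) :=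
        hfx _ (mem_image_of_mem _ hv)
      rw [i3 v hv] at h5
      exact fix_closure k.2 h5
    intro a ha b hb
    rw [hCy' a ha, hCy' b hb]
  obtain ⟨K, hKo, hKt⟩ := locTriv' hn (stable_src φ B) (H := D) hcrit (x0 := φ.symm v1) (by
    refine ⟨φ.restrOpen _ (φ.isOpen_inter_preimage hBo), ?_, ?_⟩
    · show (φ.restrOpen _ (φ.isOpen_inter_preimage hBo)).source ⊆ _
      rw [OpenPartialHomeomorph.restrOpen_source]
      exact inter_subset_right
    · rw [OpenPartialHomeomorph.restrOpen_source]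
      refine ⟨φ.map_target (hBt hv1), φ.map_target (hBt hv1), ?_⟩
      rw [mem_preimage, φ.right_inv (hBt hv1)]
      exact hv1)
  have hgD : g ^ M ∈ D := Subgroup.le_topologicalClosure _ (Subgroup.mem_zpowers _)
  have htend : Tendsto (fun j : ℕ => (⟨g ^ M, hgD⟩ : D) ^ p ^ j) atTop (𝓝 1) := by
    rw [tendsto_subtype_rng]
    have h1 : Tendsto (fun j : ℕ => (g ^ p ^ j) ^ M) atTop (𝓝 (1 ^ M)) := hg.pow M
    rw [one_pow] at h1
    refine h1.congr fun j => ?_
    simp only [SubmonoidClass.coe_pow]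
    rw [← pow_mul, ← pow_mul, mul_comm]
  obtain ⟨j, hj⟩ := (htend.eventually (hKo.mem_nhds K.one_mem)).exists
  obtain ⟨x, hxt, hx⟩ := mem_closure_iff_nhds.1 hv1Z _ hKt
  have h1 := hxt _ hj
  have h2 : g ^ (M * p ^ j) • x = x := by
    rw [pow_mul]
    exact h1
  exact hx _ (Nat.mul_pos hM (pow_pos hp.pos j)) h2

end

end Pool.Agent.N512.HS
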