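import Pool.Agent.N512.HS.A5

/-!
# Cosets with small energies on a closed set
-/

set_option autoImplicit false
set_option linter.unusedSectionVars false

open MeasureTheory Set Metric Filter Topology TopologicalSpace
open scoped ENNReal NNReal

namespace Pool.Agent.N512.HS

open Pool.Agent.Y485.HS Pool.Agent.Y489.SP Pool.Agent.Y475.HS Pool.Agent.R775.HS
  Pool.Agent.R775.HC

theorem isClosed_ener {n : ℕ} {S : Type} [TopologicalSpace S] {Q : Set (E n)} {r b : ℝ}
    {f : S → E n → E n} (hf : ∀ v ∈ Q, Continuous (fun s => f s v)) :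
    IsClosed {s | Ener Q r b (f s)} := by
  have h1 : {s | Ener Q r b (f s)} = ⋂ (A : Finset (E n)) (x : E n → E n) (y : E n → E n)
      (_ : ∀ a ∈ A, a ∈ Q ∧ x a ∈ Q ∧ y a ∈ Q ∧ dist (x a) a ≤ r ∧ dist (y a) a ≤ r)
      (_ : ∀ a ∈ A, ∀ a' ∈ A, a ≠ a' → r ≤ dist a a'),
      {s | ∑ a ∈ A, dist (f s (x a)) (f s (y a)) ^ n ≤ b} := by
    ext s
    simp only [Ener, mem_ofPred_eq, mem_iInter]
  rw [h1]
  refine isClosed_iInter fun A => isClosed_iInter fun x => isClosed_iInter fun y =>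
    isClosed_iInter fun h1 => isClosed_iInter fun _ => ?_
  refine isClosed_le (continuous_finsetSum _ fun a ha => ?_) continuous_const
  exact ((hf _ (h1 a ha).2.1).dist (hf _ (h1 a ha).2.2.1)).pow n

theorem ener_hol {n : ℕ} (hn : 1 ≤ n) {Q : Set (E n)} {f : E n → E n} {z : E n}
    (hQ : Q ⊆ closedBall z 1) {α C : ℝ} (hα : ((n : ℝ) - 1) / n < α) (hC : 0 ≤ C)
    (hH : ∀ x ∈ Q, ∀ a ∈ Q, dist (f x) (f a) ≤ C * dist x a ^ α) :
    ∃ m : ℕ, ∀ j, m ≤ j → Ener Q ((1 / 2) ^ j) (2 ^ j / (j + 1)) f := by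
  have hn0 : (0 : ℝ) < n := by exact_mod_cast (by omega : 0 < n)
  have hn1 : (1 : ℝ) ≤ n := by exact_mod_cast hn
  have hα0 : 0 < α := lt_of_le_of_lt (div_nonneg (by linarith) hn0.le) hα
  have hδ : 0 < n * α - (n - 1) := by
    rw [div_lt_iff₀ hn0] at hα
    linarith
  obtain ⟨m, hm⟩ := seq_bound (3 ^ n * (2 * C) ^ n) (n * α - (n - 1)) hδ
  refine ⟨m, fun j hj => ?_⟩
  set r : ℝ := (1 / 2) ^ j with hr
  have hr0 : 0 < r := by positivity
  have hr1 : r ≤ 1 := pow_le_one₀ (by norm_num) (by norm_num)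
  intro A x y h1 h2
  have hcard : (A.card : ℝ) ≤ 3 ^ n / r ^ n := by
    have h3 := Pool.Agent.Y662.SP.SOB.pack z hr0 (R := 1) one_pos.le A (fun a ha => by
      have := hQ (h1 a ha).1
      rwa [mem_closedBall] at this) h2
    refine h3.trans ?_
    rw [← div_pow]
    refine pow_le_pow_left₀ (by positivity) ?_ n
    rw [le_div_iff₀ hr0, add_mul, div_mul_cancel₀ _ hr0.ne']
    linarith
  have hterm : ∀ a ∈ A, dist (f (x a)) (f (y a)) ^ n ≤ (2 * C) ^ n * (r ^ α) ^ n := by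
    intro a ha
    obtain ⟨k1, k2, k3, k4, k5⟩ := h1 a ha
    rw [← mul_pow]
    refine pow_le_pow_left₀ dist_nonneg ?_ n
    have e1 := hH _ k2 _ k1
    have e2 := hH _ k3 _ k1
    have e3 : dist (x a) a ^ α ≤ r ^ α := Real.rpow_le_rpow dist_nonneg k4 hα0.le
    have e4 : dist (y a) a ^ α ≤ r ^ α := Real.rpow_le_rpow dist_nonneg k5 hα0.le
    calc dist (f (x a)) (f (y a)) ≤ dist (f (x a)) (f a) + dist (f (y a)) (f a) :=
          dist_triangle_right _ _ _
      _ ≤ C * dist (x a) a ^ α + C * dist (y a) a ^ α := add_le_add e1 e2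
      _ ≤ C * r ^ α + C * r ^ α := by gcongr
      _ = 2 * C * r ^ α := by ring
  calc ∑ a ∈ A, dist (f (x a)) (f (y a)) ^ n ≤ ∑ a ∈ A, (2 * C) ^ n * (r ^ α) ^ n :=
        Finset.sum_le_sum hterm
    _ = A.card * ((2 * C) ^ n * (r ^ α) ^ n) := by rw [Finset.sum_const, nsmul_eq_mul]
    _ ≤ 3 ^ n / r ^ n * ((2 * C) ^ n * (r ^ α) ^ n) := by gcongr
    _ = 3 ^ n * (2 * C) ^ n * r ^ ((n * α - (n - 1)) - 1) := by
        have e1 : (r ^ α) ^ n = r ^ (n * α) := by
          rw [← Real.rpow_natCast, ← Real.rpow_mul hr0.le, mul_comm]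
        have e2 : r ^ n = r ^ (n : ℝ) := (Real.rpow_natCast r n).symm
        have e3 : r ^ ((n * α - (n - 1)) - 1) = r ^ (n * α) / r ^ (n : ℝ) := by
          rw [← Real.rpow_sub hr0]
          congr 1
          ring
        rw [e1, e2, e3]
        ring
    _ ≤ 2 ^ j / (j + 1) := hm j hj

section
variable {n : ℕ} {X : Type} [TopologicalSpace X]

/-- a coset with small energies on a closed set which contains all nontrivial continua of the
closure of the set of the points of infinite orbit -/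
theorem rel_coset (hn : 1 ≤ n) [T2Space X] {S : Type} [Group S] [TopologicalSpace S]
    [IsTopologicalGroup S] [CompactSpace S] [T2Space S] [TotallyDisconnectedSpace S]
    [MulAction S X] [ContinuousSMul S X] {φ : OpenPartialHomeomorph X (E n)} {g s1 : S}
    {B P : Set (E n)} (hBo : IsOpen B) (hBt : B ⊆ φ.target) (hPc : IsClosed P)
    (hP : ∀ C ⊆ B, IsPreconnected C →
      (∀ v ∈ C, φ.symm v ∈ closure {x : X | InfOrbit g x}) → ¬ C.Subsingleton → C ⊆ P)
    (hs1 : ∀ v ∈ B, s1 • φ.symm v ∈ φ.source) {r b : ℕ → ℝ} (hr : ∀ j, 0 < r j)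
    (hrb : Tendsto (fun j => r j * b j) atTop (𝓝 0)) {m : ℕ} {K : Subgroup S}
    (hKc : IsClosed (K : Set S)) (hKg : ∀ k ∈ K, k ∈ (Subgroup.zpowers g).topologicalClosure)
    (hK : ∀ k ∈ K, ∀ j, m ≤ j →
      Ener (B ∩ P) (r j) (b j) (fun v => φ ((s1 * k) • φ.symm v))) {v1 : E n} (hv1 : v1 ∈ B) :
    ∃ K1 : Subgroup K, IsOpen (K1 : Set K) ∧
      ∀ᶠ x in 𝓝 (φ.symm v1), ∀ k ∈ K1, k • x = x := by
  have : CompactSpace K := isCompact_iff_compactSpace.1 hKc.isCompact
  let A : Set (OpenPartialHomeomorph X (E n)) := {φ' | φ'.source ⊆ φ.source ∩ φ ⁻¹' B ∧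
    ∃ L : ℝ, 0 ≤ L ∧ ∀ a ∈ φ'.source, ∀ a' ∈ φ'.source,
      dist (φ' a) (φ' a') ≤ L * dist (φ (s1 • a)) (φ (s1 • a'))}
  have hA : Stable n A := by
    rintro φ' ⟨h1, L, hL0, hL⟩ e ⟨L', hL'⟩
    have hsub : (φ'.trans e).source ⊆ φ'.source := by
      rw [OpenPartialHomeomorph.trans_source]
      exact inter_subset_left
    refine ⟨hsub.trans h1, |L'| * L, by positivity, fun a ha a' ha' => ?_⟩
    have ha2 := ha
    have ha2' := ha'
    rw [OpenPartialHomeomorph.trans_source] at ha2 ha2'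
    have e1 := (hL' (φ' a) ha2.2 (φ' a') ha2'.2).1
    have e2 := hL a (hsub ha) a' (hsub ha')
    calc dist ((φ'.trans e) a) ((φ'.trans e) a') ≤ L' * dist (φ' a) (φ' a') := e1
      _ ≤ |L'| * dist (φ' a) (φ' a') := mul_le_mul_of_nonneg_right (le_abs_self _) dist_nonneg
      _ ≤ |L'| * (L * dist (φ (s1 • a)) (φ (s1 • a'))) := by gcongr
      _ = _ := by ring
  have hO : IsOpen (φ.source ∩ φ ⁻¹' B) := φ.isOpen_inter_preimage hBo
  have hx1 : φ.symm v1 ∈ RegA A := by
    refine ⟨((Homeomorph.smul s1).toOpenPartialHomeomorph.trans φ).restrOpen _ hO, ⟨?_, 1,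
      zero_le_one, ?_⟩, ?_⟩
    · rw [OpenPartialHomeomorph.restrOpen_source]
      exact inter_subset_right
    · intro a _ a' _
      rw [one_mul]
      exact le_of_eq rfl
    · rw [OpenPartialHomeomorph.restrOpen_source, OpenPartialHomeomorph.trans_source]
      refine ⟨⟨mem_univ _, ?_⟩, φ.map_target (hBt hv1), ?_⟩
      · show s1 • φ.symm v1 ∈ φ.source
        exact hs1 v1 hv1
      · show φ (φ.symm v1) ∈ B
        rw [φ.right_inv (hBt hv1)]
        exact hv1
  have hcrit : ∀ k : K, Crit A k := by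
    intro k p' _ _ hcomp φ' hφ' hsm
    obtain ⟨hφs, L, hL0, hL⟩ := hφ'
    obtain ⟨F0, f1, f2, f3, f4⟩ := exists_good_inf (H := K) hcomp hsm
    apply f4
    have h34 : closedBall (0 : E n) 3 ⊆ closedBall 0 4 :=
      closedBall_subset_closedBall (by norm_num)
    have ht3 : closedBall (0 : E n) 3 ⊆ φ'.target := h34.trans hsm.1
    have hτs : ∀ v ∈ closedBall (0 : E n) 3, φ'.symm v ∈ φ'.source := fun v hv =>
      φ'.map_target (ht3 hv)
    have hτφ : ∀ v ∈ closedBall (0 : E n) 3, φ.symm (φ (φ'.symm v)) = φ'.symm v := fun v hv =>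
      φ.left_inv (hφs (hτs v hv)).1
    -- the coordinates
    set τ : E n → E n := fun v => φ (φ'.symm v) with hτ
    set σ : E n → E n := fun u => φ' (φ.symm u) with hσ
    have hτc : ContinuousOn τ (closedBall 0 3) :=
      φ.continuousOn.comp (φ'.continuousOn_symm.mono ht3) fun v hv => (hφs (hτs v hv)).1
    have hστ : ∀ v ∈ closedBall (0 : E n) 3, σ (τ v) = v := by
      intro v hv
      show φ' (φ.symm (φ (φ'.symm v))) = v
      rw [hτφ v hv, φ'.right_inv (ht3 hv)]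
    set Q : Set (E n) := τ '' closedBall 0 3 ∩ P with hQ
    have hQc : IsCompact Q := ((isCompact_closedBall 0 3).image_of_continuousOn hτc).inter_right hPc
    have hσc : ContinuousOn σ (τ '' closedBall 0 3) := by
      refine φ'.continuousOn.comp (φ.continuousOn_symm.mono ?_) ?_
      · rintro _ ⟨v, hv, rfl⟩
        exact φ.map_source (hφs (hτs v hv)).1
      · rintro _ ⟨v, hv, rfl⟩
        show φ.symm (φ (φ'.symm v)) ∈ φ'.source
        rw [hτφ v hv]
        exact hτs v hv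
    have hσm : ∀ u ∈ Q, σ u ∈ closedBall (0 : E n) 4 := by
      rintro _ ⟨⟨v, hv, rfl⟩, -⟩
      rw [hστ v hv]
      exact h34 hv
    have hval : ∀ u ∈ Q, u ∈ B ∩ P ∧ φ'.symm (σ u) = φ.symm u ∧
        ∀ q : K, q ∈ (Subgroup.zpowers k).topologicalClosure →
          (q : S) • φ.symm u ∈ φ'.source := by
      rintro _ ⟨⟨v, hv, rfl⟩, hvP⟩
      have e1 := hτφ v hv
      refine ⟨⟨(hφs (hτs v hv)).2, hvP⟩, ?_, fun q hq => ?_⟩
      · show φ'.symm (φ' (φ.symm (φ (φ'.symm v)))) = φ.symm (φ (φ'.symm v))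
        rw [e1, φ'.left_inv (hτs v hv)]
      · show (q : S) • φ.symm (φ (φ'.symm v)) ∈ φ'.source
        rw [e1]
        exact (hsm.2 q hq v (h34 hv)).1
    have hen : ∀ j, Ener Q (r (j + m)) (L ^ n * b (j + m)) (fun u => F0 (σ u)) := by
      intro j
      refine f3 Q _ _ σ hσm fun q hq => ?_
      intro F x y h1 h2
      have h3 := hK (q : S) q.2 (j + m) (by omega) F x y (fun a ha => by
        obtain ⟨g1, g2, g3, g4⟩ := h1 a ha
        exact ⟨(hval _ g1).1, (hval _ g2).1, (hval _ g3).1, g4⟩) h2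
      calc ∑ a ∈ F, dist (φ' (q • φ'.symm (σ (x a)))) (φ' (q • φ'.symm (σ (y a)))) ^ n
          ≤ ∑ a ∈ F, L ^ n * dist (φ ((s1 * (q : S)) • φ.symm (x a)))
              (φ ((s1 * (q : S)) • φ.symm (y a))) ^ n := by
            refine Finset.sum_le_sum fun a ha => ?_
            obtain ⟨-, g2, g3, -⟩ := h1 a ha
            obtain ⟨-, hx2, hx3⟩ := hval _ g2
            obtain ⟨-, hy2, hy3⟩ := hval _ g3
            rw [hx2, hy2, ← mul_pow, mul_smul, mul_smul]
            exact pow_le_pow_left₀ dist_nonneg (hL _ (hx3 q hq) _ (hy3 q hq)) n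
        _ = L ^ n * ∑ a ∈ F, dist (φ ((s1 * (q : S)) • φ.symm (x a)))
              (φ ((s1 * (q : S)) • φ.symm (y a))) ^ n := by rw [Finset.mul_sum]
        _ ≤ L ^ n * b (j + m) := by gcongr
    have hrb' : Tendsto (fun j => r (j + m) * (L ^ n * b (j + m))) atTop (𝓝 0) := by
      have h1 := (tendsto_add_atTop_iff_nat m).2 hrb
      have h2 := h1.const_mul (L ^ n)
      rw [mul_zero] at h2
      refine h2.congr fun j => ?_
      ring
    have hae := ae_fibre hQc (f := fun u => F0 (σ u))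
      (f1.comp (hσc.mono inter_subset_left) hσm) (fun j => hr (j + m)) hrb' hen
    intro y hy ε hε
    have hopen : (ball (0 : E n) 1 ∩ ball y ε) ∈ 𝓝 y :=
      inter_mem (isOpen_ball.mem_nhds hy) (ball_mem_nhds y hε)
    have hd := Measure.dense_of_ae hae
    obtain ⟨y', ⟨hy1, hy2⟩, hy3⟩ := (mem_closure_iff_nhds.1 (hd y)) _ hopen
    refine ⟨y', hy1, hy2, ?_⟩
    intro C hC3 hCp hCZ hCy
    by_contra hns
    obtain ⟨i1, i2, i3, i4⟩ := cont_image (φ := φ) (B := B) hsm.1 hφs hC3 hCp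
    have hsub : {x : X | InfOrbit k x} ⊆ {x : X | InfOrbit g x} := by
      intro x hx
      have hx' : InfOrbit (k : S) x := hx
      exact inf_of_mem (hKg _ k.2) hx'
    have hCP := hP _ i2 i1 (by
      rintro _ ⟨v, hv, rfl⟩
      rw [i3 v hv]
      exact closure_mono hsub (hCZ v hv)) (fun h => hns (i4 h))
    refine hns (i4 (hy3 (τ '' C) ?_ i1 ?_))
    · exact subset_inter (image_mono hC3) hCP
    · rintro _ ⟨v, hv, rfl⟩
      show F0 (σ (τ v)) = y'
      rw [hστ v (hC3 hv)]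
      exact hCy v hv
  exact locTriv' hn hA (H := K) hcrit hx1

end

end Pool.Agent.N512.HS
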